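import Pool.Agent.P.MP_192724_nt.Main

/-!
The choice of parameters.
-/

open Finset

namespace Pool.Agent.P.MP_192724_nt

theorem exists_M {D η : ℝ} {c₀ k L : ℕ} (d1 : 1 ≤ D) (η0 : 0 < η) (η1 : η ≤ 1)
    (hc₀ : 128 * Real.exp 129 / η ^ 2 + 256 * D / η ≤ c₀) (l6 : (1 : ℝ) ≤ (k : ℝ) ^ 6)
    (l7 : (257 * D + c₀) * (k : ℝ) ^ 6 ≤ L) (n : ℕ) (hn : D = n) : ∃ M : ℕ, 256 * n ≤ M ∧
      2 * ((8 * k ^ 3 : ℕ) : ℝ) ^ 2 ≤ η * Real.exp (M / (2 * D)) ∧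
      Real.exp ((M + 1) / (2 * D)) ≤ L * η ∧ M ≤ L := by
  have y1 : 1 ≤ 128 * (k : ℝ) ^ 6 / η := by rw [le_div_iff₀ η0]; linarith
  have y2 := Real.log_nonneg y1
  obtain ⟨M₀, y3, y4⟩ : ∃ M₀ : ℕ, 2 * D * Real.log (128 * (k : ℝ) ^ 6 / η) ≤ M₀ ∧
      (M₀ : ℝ) ≤ 2 * D * Real.log (128 * (k : ℝ) ^ 6 / η) + 1 :=
    ⟨_, Nat.le_ceil _, (Nat.ceil_lt_add_one (by positivity)).le⟩
  have y5 : ((256 * n + M₀ : ℕ) : ℝ) = 256 * D + M₀ := by rw [hn]; push_cast; rfl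
  have y6 : 2 * ((8 * k ^ 3 : ℕ) : ℝ) ^ 2 ≤
      η * Real.exp ((256 * n + M₀ : ℕ) / (2 * D)) := by
    have := (Real.log_le_iff_le_exp (by linarith)).1
      (show Real.log (128 * (k : ℝ) ^ 6 / η) ≤ (256 * n + M₀ : ℕ) / (2 * D) by
        rw [y5, le_div_iff₀ (by linarith)]
        linarith)
    rw [div_le_iff₀ η0] at this
    push_cast at this ⊢
    linarith
  have y7 : Real.exp (((256 * n + M₀ : ℕ) + 1) / (2 * D)) ≤ L * η := by
    calc _ ≤ Real.exp (129 + Real.log (128 * (k : ℝ) ^ 6 / η)) := by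
          rw [Real.exp_le_exp, y5, div_le_iff₀ (by linarith)]
          linarith
      _ = 128 * Real.exp 129 / η ^ 2 * (k : ℝ) ^ 6 * η := by
          rw [Real.exp_add, Real.exp_log (by linarith)]
          field_simp
      _ ≤ _ := by
          refine mul_le_mul_of_nonneg_right (le_trans ?_ l7) η0.le
          gcongr
          have : 0 ≤ 256 * D / η := by positivity
          linarith
  have y8 : 256 * n + M₀ ≤ L := by
    refine (Nat.cast_le (α := ℝ)).1 (le_trans ?_ l7)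
    have a1 := Real.log_le_self (show 0 ≤ 128 * (k : ℝ) ^ 6 / η by linarith)
    have a2 : 2 * D * (128 * (k : ℝ) ^ 6 / η) = 256 * D / η * (k : ℝ) ^ 6 := by ring
    have a3 : 0 ≤ 128 * Real.exp 129 / η ^ 2 := by positivity
    rw [y5]
    nlinarith [mul_le_mul_of_nonneg_left a1 (show 0 ≤ 2 * D by linarith),
      mul_le_mul_of_nonneg_right (show 256 * D / η ≤ c₀ by linarith)
        (show 0 ≤ (k : ℝ) ^ 6 by linarith)]
  exact ⟨_, Nat.le_add_right _ _, y6, y7, y8⟩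

theorem small_end {k L H : ℕ} (hk : 0 < k) (h1 : 16384 * k ^ 4 ≤ L) (h2 : H ≤ 2 ^ k) (h3 : 0 < H) :
    3 * (12 * ((8 * k ^ 3 : ℕ) : ℝ) ^ 2 * (2 * k * ((8 * k ^ 3 : ℕ) : ℝ) / L) ^ (2 * k)) ≤ 2 / H := by
  have L0 : 0 < L := lt_of_lt_of_le (by positivity) h1
  have a1 : 2 * k * ((8 * k ^ 3 : ℕ) : ℝ) / L ≤ 1 / 1024 := by
    rw [div_le_div_iff₀ (by positivity) (by norm_num)]
    exact_mod_cast (by nlinarith : 2 * k * (8 * k ^ 3) * 1024 ≤ 1 * L)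
  have a2 : 18 * (8 * k ^ 3) ^ 2 * H ≤ 1024 ^ (2 * k) := by
    have b1 : k ^ 6 ≤ (2 ^ k) ^ 6 := Nat.pow_le_pow_left Nat.lt_two_pow_self.le _
    have b2 : 2 ^ 11 ≤ (2 ^ k) ^ 13 := by
      rw [← pow_mul]
      exact Nat.pow_le_pow_right (by norm_num) (by omega)
    calc _ = 1152 * k ^ 6 * H := by ring
      _ ≤ (2 ^ k) ^ 13 * (2 ^ k) ^ 6 * (2 ^ k) ^ 1 := by
        gcongr
        · omega
        · rwa [pow_one]
      _ = _ := by
        rw [← pow_add, ← pow_add, ← pow_mul, show 1024 = 2 ^ 10 by norm_num, ← pow_mul]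
        congr 1
        ring
  have a3 := (Nat.cast_le (α := ℝ)).2 a2
  calc _ ≤ 3 * (12 * ((8 * k ^ 3 : ℕ) : ℝ) ^ 2 * (1 / 1024) ^ (2 * k)) := by gcongr
    _ ≤ _ := by
      rw [one_div_pow, mul_one_div, mul_div_assoc', div_le_div_iff₀ (by positivity) (by positivity)]
      push_cast at a3 ⊢
      linarith

theorem core {d : ℤ} (hd : d ≠ 0) : ∃ c : ℕ, ∀ k X : ℕ, 0 < k → (c * k ^ 6) ^ 12 ≤ X →
    X ≤ 2 ^ k → (X : ℝ) ≤ ((c * k ^ 6 : ℕ) : ℝ) ^ 65 * #(neg d X) := by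
  obtain ⟨b, hb, hb'⟩ := exists_large hd (256 * d.natAbs)
  have D0 : 1 ≤ d.natAbs := Int.natAbs_pos.2 hd
  have eD : |(d : ℝ)| = (d.natAbs : ℝ) := by
    rw [← Int.cast_abs, ← Int.natCast_natAbs, Int.cast_natCast]
  have d1 : (1 : ℝ) ≤ |(d : ℝ)| := by exact_mod_cast Int.one_le_abs hd
  obtain ⟨A, hA⟩ := exists_ang d1
  obtain ⟨η, η0, η1, hη⟩ := exists_hankel d1
  obtain ⟨c₀, hc₀⟩ := exists_nat_ge (128 * Real.exp 129 / η ^ 2 + 256 * |(d : ℝ)| / η)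
  obtain ⟨c, hc⟩ : ∃ c, c = 100000000000000 * d.natAbs + b + c₀ := ⟨_, rfl⟩
  refine ⟨c, fun k X hk h1 h2 => ?_⟩
  obtain ⟨γ, h, g1, g2, g3, g4, g5, g6⟩ := hη k _ hk rfl
  have l0 : 1 ≤ k ^ 6 := Nat.one_le_pow _ _ hk
  have l1 : c ≤ c * k ^ 6 := Nat.le_mul_of_pos_right _ l0
  have l2 : 16384 * k ^ 6 ≤ c * k ^ 6 := Nat.mul_le_mul_right _ (by omega)
  have l3 : k ≤ k ^ 6 := Nat.le_self_pow (by norm_num) _
  have l4 : k ^ 3 ≤ k ^ 6 := Nat.pow_le_pow_right hk (by norm_num)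
  have l5 : k ^ 4 ≤ k ^ 6 := Nat.pow_le_pow_right hk (by norm_num)
  have l6 : (1 : ℝ) ≤ (k : ℝ) ^ 6 := by exact_mod_cast l0
  have l7 : (257 * |(d : ℝ)| + c₀) * (k : ℝ) ^ 6 ≤ (c * k ^ 6 : ℕ) := by
    rw [eD]
    exact_mod_cast Nat.mul_le_mul_right _ (by omega : 257 * d.natAbs + c₀ ≤ c)
  obtain ⟨M, y5, y6, y7, y8⟩ := exists_M d1 η0 η1 hc₀ l6 l7 d.natAbs eD
  generalize c * k ^ 6 = L at *
  have L0 : 0 < L := by omega
  obtain ⟨H₁, hH₁⟩ : ∃ H₁, H₁ = X.sqrt / (1200 * L ^ 5) := ⟨_, rfl⟩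
  have s1 : 1200 * L ^ 5 * H₁ ≤ X.sqrt := hH₁ ▸ Nat.mul_div_le _ _
  have s2 : X.sqrt < 1200 * L ^ 5 * (H₁ + 1) := hH₁ ▸ Nat.lt_mul_div_succ _ (by positivity)
  have s3 : 1200 * L ^ 5 ≤ X.sqrt := by
    refine le_trans ?_ (Nat.le_sqrt'.2 (show (L ^ 6) ^ 2 ≤ X by rwa [← pow_mul]))
    rw [pow_succ' L 5]
    exact Nat.mul_le_mul_right _ (by omega)
  have s4 : 0 < H₁ := hH₁ ▸ Nat.div_pos s3 (by positivity)
  have s5 : 2 * (800 * L ^ 5 * H₁) ^ 2 ≤ X := by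
    have := (Nat.pow_le_pow_left s1 2).trans (Nat.sqrt_le' X)
    nlinarith [Nat.zero_le ((L ^ 5 * H₁) ^ 2)]
  have s6 : X ≤ (2400 * L ^ 5 * H₁) ^ 2 := by
    refine (Nat.lt_succ_sqrt' X).le.trans (Nat.pow_le_pow_left ?_ 2)
    nlinarith [Nat.mul_le_mul_left (L ^ 5) s4]
  have s7 : H₁ * (200 * L ^ 4 * H₁) ≤ X := by
    refine le_trans ?_ s5
    have : L ^ 4 ≤ L ^ 10 := Nat.pow_le_pow_right L0 (by norm_num)
    nlinarith [Nat.mul_le_mul_right (H₁ ^ 2) this]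
  have s8 : L ≤ H₁ * (200 * L ^ 4 * H₁) := by
    have : L ≤ L ^ 4 := Nat.le_self_pow (by norm_num) _
    nlinarith [Nat.mul_le_mul s4 s4, Nat.mul_le_mul this (Nat.mul_le_mul s4 s4)]
  have r1 : (1 : ℝ) ≤ L := by exact_mod_cast L0
  have r2 : (1 : ℝ) ≤ H₁ := by exact_mod_cast s4
  have r3 : 100000000000000 * |(d : ℝ)| ≤ L := by
    rw [eD]
    exact_mod_cast (by omega : 100000000000000 * d.natAbs ≤ L)
  obtain ⟨J, j1, j2⟩ := exists_J hd (800 * L ^ 5 * H₁) X s5 (T := (L : ℝ) ^ 27) (by positivity)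
  obtain ⟨φ, hφ, j3⟩ := exists_phi hA hd (200 * L ^ 4 * H₁) H₁ (800 * L ^ 5 * H₁) (2 * L)
    (by positivity) s4 (le_trans (by linarith) (by exact_mod_cast s8 : (L : ℝ) ≤ _)) (by omega)
    (le_of_eq (by ring)) J j2
  have j4 : ∀ m : ℕ, 256 * d.natAbs ≤ m → m ≤ 2 * L → Good φ (1 / (64 * |(d : ℝ)|)) (A (1 / m))
      (lam (m ^ 2 + d)) (24 * H₁ / (200 * L ^ 4 * H₁ : ℕ) +
        8 * #J / (H₁ * (200 * L ^ 4 * H₁ : ℕ))) := by
    intro m a1 a2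
    have a3 : 256 * |(d : ℝ)| ≤ m := by rw [eD]; exact_mod_cast a1
    have := j3 m 1 (by omega) (by omega) (by
      push_cast
      rw [abs_of_pos (div_pos one_pos (by linarith))]
      exact one_div_le_one_div_of_le (by positivity) (by linarith)) 0 (by rw [abs_zero]; positivity)
    rw [add_zero, one_pow, mul_one, Int.cast_one, Int.cast_natCast] at this
    exact this
  have j5 := chain (R := L) (b := b) (L := L) (G := 2 / (H₁ * (200 * L ^ 4 * H₁ : ℕ))) hA d1 hφ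
    g1 g2 g3 g4 g6 η0 (by positivity) (by rw [eD]; exact_mod_cast y5) y6 y7 y8
    le_rfl (by exact_mod_cast (by nlinarith : 4 * (8 * k ^ 3) ^ 2 ≤ L))
    (fun m a1 a2 => ⟨_, lam_mul_self _, j4 m (by omega) (by omega)⟩)
    (fun t ht => by
      have := j3 1 0 one_pos (by omega) (by simp) t ht
      simpa [hA.zero, lam_one] using this)
    (hb' ▸ j4 b hb (by omega)) (by rw [eD]; exact_mod_cast hb)
    ((mul_le_mul_of_nonneg_left (g5 L (by linarith)) (by norm_num)).trans (by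
      exact_mod_cast small_end hk (show _ ≤ L by omega) (s7.trans h2) (by positivity)))
    (by positivity)
  have k1 : 3 * (H₁ : ℝ) ^ 2 ≤ #J := by
    have e : 4 * (L : ℝ) ^ 4 * (24 * H₁ / (200 * L ^ 4 * H₁ : ℕ) +
        8 * #J / (H₁ * (200 * L ^ 4 * H₁ : ℕ))) = 12 / 25 + 4 / 25 * #J / H₁ ^ 2 := by
      push_cast
      field_simp
      ring
    rw [e, ← sub_le_iff_le_add', le_div_iff₀ (by positivity)] at j5
    linarith [sq_nonneg (H₁ : ℝ)]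
  have k2 := rich_le d hd (800 * L ^ 5 * H₁) (Nat.succ_le_of_lt (by positivity))
    (T := (L : ℝ) ^ 27) (by positivity)
  have k3 : 1 + Real.log (2 * ((800 * L ^ 5 * H₁ : ℕ) : ℝ) ^ 2) ≤ L := by
    have a1 : Real.log (2 * ((800 * L ^ 5 * H₁ : ℕ) : ℝ) ^ 2) ≤ Real.log (2 ^ k) :=
      Real.log_le_log (by positivity) (by exact_mod_cast s5.trans h2)
    have a2 : Real.log 2 ≤ 1 := by linarith [Real.log_le_sub_one_of_pos (show (0 : ℝ) < 2 by norm_num)]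
    have a3 : 1 + (k : ℝ) ≤ L := by exact_mod_cast (by omega : 1 + k ≤ L)
    rw [Real.log_pow] at a1
    linarith [mul_le_mul_of_nonneg_left a2 (Nat.cast_nonneg (α := ℝ) k)]
  have k4 : (#(rich d (800 * L ^ 5 * H₁) ((L : ℝ) ^ 27)) : ℝ) ≤ H₁ ^ 2 := by
    have a1 : 0 ≤ Real.log (2 * ((800 * L ^ 5 * H₁ : ℕ) : ℝ) ^ 2) := by
      exact_mod_cast Real.log_natCast_nonneg (2 * (800 * L ^ 5 * H₁) ^ 2)
    refine (pow_le_pow_iff_left₀ (by positivity) (by positivity) two_ne_zero).1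
      (le_of_mul_le_mul_right (k2.trans ?_) (by positivity))
    calc _ ≤ 44 * |(d : ℝ)| * ((800 * L ^ 5 * H₁ : ℕ) : ℝ) ^ 4 * L ^ 6 := by gcongr
      _ = (44 * 800 ^ 4 * |(d : ℝ)|) * (L ^ 26 * H₁ ^ 4) := by push_cast; ring
      _ ≤ L * (L ^ 26 * H₁ ^ 4) := by
        gcongr
        linarith
      _ = _ := by ring
  have k5 : (X : ℝ) ≤ (2400 * L ^ 5 * H₁) ^ 2 := by exact_mod_cast s6
  have k6 : 2 * (H₁ : ℝ) ^ 2 ≤ #(neg d X) * (L ^ 27) ^ 2 := by linarith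
  calc (X : ℝ) ≤ 2880000 * L ^ 10 * (2 * H₁ ^ 2) := k5.trans (le_of_eq (by ring))
    _ ≤ L * L ^ 10 * (#(neg d X) * (L ^ 27) ^ 2) := by
      gcongr
      linarith
    _ = _ := by ring

theorem main {d : ℤ} (hd : d ≠ 0) : ∃ X₀ : ℕ, ∀ X : ℕ, X₀ ≤ X →
    (X : ℝ) / Real.log X ^ 455 ≤ #(neg d X) := by
  obtain ⟨c, h⟩ := core hd
  have t1 : Filter.Tendsto (fun X : ℕ => Real.log X) Filter.atTop Filter.atTop :=
    Real.tendsto_log_atTop.comp tendsto_natCast_atTop_atTop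
  have t2 := tendsto_natCast_atTop_atTop.eventually
    ((Real.isLittleO_pow_log_id_atTop (n := 84)).bound one_pos)
  obtain ⟨X₀, hX₀⟩ := Filter.eventually_atTop.1
    ((t1.eventually_ge_atTop (c * 3 ^ 6 + 1)).and (t2.and (Filter.eventually_gt_atTop 0)))
  refine ⟨X₀, fun X hX => ?_⟩
  obtain ⟨a1, a2, a3⟩ := hX₀ X hX
  have a0 : (0 : ℝ) ≤ c * 3 ^ 6 := by positivity
  have a4 : (Nat.log 2 X : ℝ) ≤ 2 * Real.log X := by
    have b1 := Real.log_le_log (by positivity)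
      ((Nat.cast_le (α := ℝ)).2 (Nat.pow_log_le_self 2 a3.ne'))
    push_cast at b1
    rw [Real.log_pow] at b1
    nlinarith [Real.log_two_gt_d9, (Nat.cast_nonneg _ : (0 : ℝ) ≤ Nat.log 2 X)]
  have a5 : ((c * (Nat.log 2 X + 1) ^ 6 : ℕ) : ℝ) ≤ Real.log X ^ 7 := by
    push_cast
    calc _ ≤ c * (3 * Real.log X) ^ 6 := by gcongr; linarith
      _ = c * 3 ^ 6 * Real.log X ^ 6 := by ring
      _ ≤ Real.log X * Real.log X ^ 6 := by gcongr; linarith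
      _ = _ := by ring
  have a6 := h (Nat.log 2 X + 1) X (Nat.succ_pos _) (by
    refine (Nat.cast_le (α := ℝ)).1 ?_
    rw [Nat.cast_pow]
    refine (pow_le_pow_left₀ (Nat.cast_nonneg _) a5 12).trans ?_
    rw [← pow_mul]
    exact (le_abs_self _).trans (by simpa using a2)) (Nat.lt_pow_succ_log_self (by norm_num) X).le
  rw [div_le_iff₀ (pow_pos (by linarith) _), mul_comm]
  refine a6.trans (mul_le_mul_of_nonneg_right ?_ (Nat.cast_nonneg _))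
  exact (pow_le_pow_left₀ (Nat.cast_nonneg _) a5 65).trans (le_of_eq (by rw [← pow_mul]))

end Pool.Agent.P.MP_192724_nt
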