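import Mathlib

/-!
The angle function of the form `x ^ 2 + d y ^ 2` and its Laplace kernel.
-/

open Set Finset

namespace Pool.Agent.P.MP_192724_nt

/-- `A` is an angle function for the form `x ^ 2 + d y ^ 2`, in terms of the slope -/
structure Ang (d : ℝ) (A : ℝ → ℝ) : Prop where
  zero : A 0 = 0
  lip : ∀ s₁ s₂, s₁ ≤ s₂ → (s₂ - s₁) / 2 ≤ A s₂ - A s₁ ∧ A s₂ - A s₁ ≤ 2 * (s₂ - s₁)
  surj : Function.Surjective A
  der : ∀ s, |s| ≤ 1 / (4 * |d|) → HasDerivAt A (1 / (1 + d * s ^ 2)) s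

variable {d : ℝ} {A : ℝ → ℝ}

theorem small_mul (hd : 1 ≤ |d|) {s t : ℝ} (hs : |s| ≤ 1 / (4 * |d|)) (ht : |t| ≤ 1 / (4 * |d|)) :
    |d * (s * t)| ≤ 1 / 16 := by
  have h0 : 0 < |d| := by linarith
  have h1 : |d| * |s| ≤ 1 / 4 := by
    rw [le_div_iff₀ (by positivity)] at hs
    linarith
  have h2 : |t| ≤ 1 / 4 := ht.trans (one_div_le_one_div_of_le (by norm_num) (by linarith))
  rw [abs_mul, abs_mul, ← mul_assoc]
  calc |d| * |s| * |t| ≤ 1 / 4 * (1 / 4) := mul_le_mul h1 h2 (abs_nonneg _) (by norm_num)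
    _ = 1 / 16 := by norm_num

theorem exists_ang (hd : 1 ≤ |d|) : ∃ A, Ang d A := by
  set s₀ : ℝ := 1 / (4 * |d|) with hs₀
  have h0 : 0 < s₀ := by positivity
  let w : ℝ → ℝ := fun t => 1 / (1 + d * min (t ^ 2) (s₀ ^ 2))
  have hb : ∀ t : ℝ, |d * min (t ^ 2) (s₀ ^ 2)| ≤ 1 / 16 := by
    intro t
    have h1 := small_mul hd (s := s₀) (t := s₀) (abs_of_pos h0).le (abs_of_pos h0).le
    refine le_trans ?_ h1
    rw [abs_mul, abs_mul d, ← sq, abs_of_nonneg (le_min (sq_nonneg t) (sq_nonneg s₀)),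
      abs_of_nonneg (sq_nonneg s₀)]
    exact mul_le_mul_of_nonneg_left (min_le_right _ _) (abs_nonneg _)
  have hp : ∀ t : ℝ, 0 < 1 + d * min (t ^ 2) (s₀ ^ 2) := fun t => by
    linarith [(abs_le.1 (hb t)).1]
  have hw : Continuous w :=
    continuous_const.div (by fun_prop) fun t => (hp t).ne'
  have hw1 : ∀ t, 1 / 2 ≤ w t ∧ w t ≤ 2 := fun t => by
    have := abs_le.1 (hb t)
    constructor
    · exact one_div_le_one_div_of_le (hp t) (by linarith)
    · simp only [w]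
      rw [div_le_iff₀ (hp t)]
      linarith
  have hA : ∀ s, HasDerivAt (fun s => ∫ t in (0 : ℝ)..s, w t) (w s) s := fun s =>
    (hw.integral_hasStrictDerivAt 0 s).hasDerivAt
  have hl : ∀ s₁ s₂, s₁ ≤ s₂ → (s₂ - s₁) / 2 ≤ (∫ t in (0 : ℝ)..s₂, w t) - ∫ t in (0 : ℝ)..s₁, w t ∧
      (∫ t in (0 : ℝ)..s₂, w t) - ∫ t in (0 : ℝ)..s₁, w t ≤ 2 * (s₂ - s₁) := by
    intro s₁ s₂ h
    rcases h.eq_or_lt with rfl | h
    · simp
    obtain ⟨c, -, hc⟩ := exists_hasDerivAt_eq_slope (fun s => ∫ t in (0 : ℝ)..s, w t) w h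
      (fun s _ => (hA s).continuousAt.continuousWithinAt) (fun s _ => hA s)
    rw [eq_div_iff (by linarith)] at hc
    rw [← hc]
    have := hw1 c
    constructor <;> nlinarith
  refine ⟨fun s => ∫ t in (0 : ℝ)..s, w t, by simp, hl, ?_, ?_⟩
  · intro y
    have hc : Continuous (fun s => ∫ t in (0 : ℝ)..s, w t) :=
      continuous_iff_continuousAt.2 fun s => (hA s).continuousAt
    have h1 := (hl 0 (2 * |y|) (by positivity)).1
    have h2 := (hl (-(2 * |y|)) 0 (by simp)).1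
    simp only [intervalIntegral.integral_same] at h1 h2
    obtain ⟨x, -, hx⟩ := intermediate_value_Icc (show -(2 * |y|) ≤ 2 * |y| by linarith [abs_nonneg y])
      hc.continuousOn (show y ∈ Set.Icc _ _ from
        ⟨by linarith [neg_abs_le y], by linarith [le_abs_self y]⟩)
    exact ⟨x, hx⟩
  · intro s hs
    have h1 : s ^ 2 ≤ s₀ ^ 2 := sq_le_sq.2 (by rwa [abs_of_pos h0])
    have := hA s
    simp only [w, min_eq_left h1] at this
    exact this

theorem Ang.abs_le (h : Ang d A) (s₁ s₂ : ℝ) :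
    |s₂ - s₁| ≤ 2 * |A s₂ - A s₁| ∧ |A s₂ - A s₁| ≤ 2 * |s₂ - s₁| := by
  rcases le_total s₁ s₂ with h1 | h1
  · have := h.lip _ _ h1
    rw [abs_of_nonneg (by linarith), abs_of_nonneg (by linarith)]
    constructor <;> linarith
  · have := h.lip _ _ h1
    rw [abs_of_nonpos (by linarith), abs_of_nonpos (by linarith)]
    constructor <;> linarith

theorem Ang.mono (h : Ang d A) : Monotone A := fun s₁ s₂ h1 => by
  linarith [(h.lip _ _ h1).1]

theorem slope_add_le (hd : 1 ≤ |d|) {s t : ℝ} (hs : |s| ≤ 1 / (16 * |d|))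
    (ht : |t| ≤ 1 / (16 * |d|)) : 15 / 16 ≤ 1 - d * (s * t) ∧ 1 - d * (s * t) ≤ 17 / 16 ∧
      |(s + t) / (1 - d * (s * t))| ≤ 1 / (4 * |d|) := by
  have h0 : 0 < |d| := by linarith
  have h1 : 1 / (16 * |d|) ≤ 1 / (4 * |d|) := one_div_le_one_div_of_le (by positivity) (by linarith)
  have h2 := abs_le.1 (small_mul hd (hs.trans h1) (ht.trans h1))
  refine ⟨by linarith, by linarith, ?_⟩
  rw [abs_div, abs_of_pos (show 0 < 1 - d * (s * t) by linarith), div_le_iff₀ (by linarith)]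
  have h3 := abs_add_le s t
  have h4 : 1 / (4 * |d|) = 4 * (1 / (16 * |d|)) := by field_simp; norm_num
  have h5 : 0 < 1 / (16 * |d|) := by positivity
  rw [h4]
  nlinarith

theorem Ang.add (h : Ang d A) (hd : 1 ≤ |d|) {s t : ℝ} (hs : |s| ≤ 1 / (16 * |d|))
    (ht : |t| ≤ 1 / (16 * |d|)) : A ((s + t) / (1 - d * (s * t))) = A s + A t := by
  have h0 : 0 < |d| := by linarith
  have h1 : 1 / (16 * |d|) ≤ 1 / (4 * |d|) := one_div_le_one_div_of_le (by positivity) (by linarith)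
  set r : ℝ := 1 / (16 * |d|) with hr
  have key : ∀ x ∈ Set.Icc (-r) r,
      HasDerivAt (fun x => A ((x + t) / (1 - d * (x * t))) - A x) 0 x := by
    intro x hx
    have hx' : |x| ≤ r := _root_.abs_le.2 hx
    obtain ⟨a1, -, a3⟩ := slope_add_le hd hx' ht
    have b1 : HasDerivAt (fun x => (x + t) / (1 - d * (x * t)))
        ((1 * (1 - d * (x * t)) - (x + t) * (-(d * (1 * t)))) / (1 - d * (x * t)) ^ 2) x :=
      ((hasDerivAt_id x).add_const t).div
        ((((hasDerivAt_id x).mul_const t).const_mul d).const_sub 1) (by linarith)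
    have b2 := ((h.der _ a3).comp x b1).sub (h.der x (hx'.trans h1))
    have c1 := _root_.abs_le.1 (small_mul hd (hx'.trans h1) (hx'.trans h1))
    have c2 := _root_.abs_le.1 (small_mul hd (ht.trans h1) (ht.trans h1))
    have c3 : 1 + d * ((x + t) / (1 - d * (x * t))) ^ 2 =
        (1 + d * x ^ 2) * (1 + d * t ^ 2) / (1 - d * (x * t)) ^ 2 := by
      have : (1 - d * (x * t)) ^ 2 ≠ 0 := pow_ne_zero _ (by linarith)
      rw [div_pow, eq_div_iff this, add_mul, mul_assoc, div_mul_cancel₀ _ this]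
      ring
    refine b2.congr_deriv ?_
    have d1 : (1 - d * (x * t)) ^ 2 ≠ 0 := pow_ne_zero _ (by linarith)
    have d2 : 1 + d * x ^ 2 ≠ 0 := by nlinarith
    have d3 : 1 + d * t ^ 2 ≠ 0 := by nlinarith
    have d4 : 1 * (1 - d * (x * t)) - (x + t) * -(d * (1 * t)) = 1 + d * t ^ 2 := by ring
    rw [c3, d4]
    generalize (1 - d * (x * t)) ^ 2 = q at d1
    field_simp
    ring
  have hr0 : 0 ≤ r := by positivity
  have hc := constant_of_has_deriv_right_zero (a := -r) (b := r)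
    (fun x hx => (key x hx).continuousAt.continuousWithinAt)
    (fun x hx => (key x ⟨hx.1, hx.2.le⟩).hasDerivWithinAt)
  have e1 := hc s (_root_.abs_le.1 hs)
  have e2 := hc 0 ⟨by linarith, hr0⟩
  simp only [zero_add, zero_mul, mul_zero, sub_zero, div_one, h.zero] at e2
  linarith

theorem Ang.th_der (h : Ang d A) (hd : 1 ≤ |d|) {x : ℝ} (hx : 4 * |d| ≤ x) :
    HasDerivAt (fun x => A (1 / x)) (-(1 / (x ^ 2 + d))) x := by
  have hx0 : 0 < x := by linarith
  have h1 : |1 / x| ≤ 1 / (4 * |d|) := by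
    rw [abs_of_pos (by positivity)]
    exact one_div_le_one_div_of_le (by positivity) hx
  have h2 : HasDerivAt (fun x : ℝ => 1 / x) (-(x ^ 2)⁻¹) x := by
    simpa only [one_div] using hasDerivAt_inv hx0.ne'
  refine ((h.der _ h1).comp x h2).congr_deriv ?_
  have h3 : x ^ 2 + d ≠ 0 := by nlinarith [neg_abs_le d]
  field_simp

theorem Ang.th_est (h : Ang d A) (hd : 1 ≤ |d|) {x : ℝ} (hx : 256 * |d| ≤ x) :
    0 ≤ A (1 / x) ∧ A (1 / x) ≤ 1 / (128 * |d|) := by
  have h0 : 0 < x := by linarith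
  have h1 := h.lip 0 (1 / x) (by positivity)
  have h2 : 1 / x ≤ 1 / (256 * |d|) := one_div_le_one_div_of_le (by positivity) hx
  have h3 : 1 / (128 * |d|) = 2 * (1 / (256 * |d|)) := by field_simp; norm_num
  have h4 : 0 < 1 / x := by positivity
  rw [h.zero] at h1
  constructor <;> linarith

/-- the sine and cosine of the form -/
theorem exists_sin (hd : 1 ≤ |d|) : ∃ S C : ℝ → ℝ, S 0 = 0 ∧ C 0 = 1 ∧
    (∀ t, HasDerivAt S (C t) t) ∧ (∀ t, HasDerivAt C (-d * S t) t) ∧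
    ∀ t, 0 ≤ t → t ≤ 1 / |d| → t / 2 ≤ S t ∧ S t ≤ 3 ∧ |C t| ≤ 3 := by
  obtain ⟨r, r1, r2⟩ : ∃ r : ℝ, 1 ≤ r ∧ r * r = |d| :=
    ⟨√|d|, Real.one_le_sqrt.2 hd, Real.mul_self_sqrt (abs_nonneg d)⟩
  have r0 : 0 < r := by linarith
  have hu : ∀ t, t ≤ 1 / |d| → r * t ≤ 1 := fun t ht => by
    rw [le_div_iff₀ (by linarith)] at ht
    rcases le_total t 0 with h | h <;> nlinarith
  have hr : ∀ t, HasDerivAt (fun t => r * t) r t := fun t => by
    simpa using (hasDerivAt_id t).const_mul r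
  rcases le_total 0 d with h | h
  · rw [abs_of_nonneg h] at r2
    refine ⟨fun t => Real.sin (r * t) / r, fun t => Real.cos (r * t), by simp, by simp,
      fun t => ((hr t).sin.div_const r).congr_deriv (by field_simp),
      fun t => (hr t).cos.congr_deriv (by rw [← r2]; field_simp), fun t t0 t1 => ⟨?_, ?_, ?_⟩⟩
    · have a1 := Real.mul_le_sin (x := r * t) (by positivity)
        (by linarith [hu t t1, Real.pi_gt_three])
      have a2 : 1 / 2 ≤ 2 / Real.pi := by
        rw [div_le_div_iff₀ (by norm_num) Real.pi_pos]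
        linarith [Real.pi_le_four]
      rw [le_div_iff₀ r0]
      nlinarith [mul_nonneg r0.le t0]
    · rw [div_le_iff₀ r0]
      linarith [Real.sin_le_one (r * t)]
    · linarith [Real.abs_cos_le_one (r * t)]
  · rw [abs_of_nonpos h] at r2
    have hc : ∀ t, 0 ≤ t → t ≤ 1 / |d| → Real.cosh (r * t) ≤ 3 := fun t t0 t1 => by
      have a1 := Real.exp_le_exp.2 (hu t t1)
      have a2 : Real.exp (-(r * t)) ≤ 1 := Real.exp_le_one_iff.2 (neg_nonpos.2 (by positivity))
      rw [Real.cosh_eq]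
      linarith [Real.exp_one_lt_d9]
    refine ⟨fun t => Real.sinh (r * t) / r, fun t => Real.cosh (r * t), by simp, by simp,
      fun t => ((hr t).sinh.div_const r).congr_deriv (by field_simp),
      fun t => (hr t).cosh.congr_deriv (by rw [← r2]; field_simp), fun t t0 t1 => ⟨?_, ?_, ?_⟩⟩
    · have a1 := Real.self_le_sinh_iff.2 (mul_nonneg r0.le t0)
      rw [le_div_iff₀ r0]
      nlinarith [mul_nonneg r0.le t0]
    · rw [div_le_iff₀ r0]
      linarith [Real.sinh_lt_cosh (r * t), hc t t0 t1]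
    · rw [abs_of_pos (Real.cosh_pos _)]
      exact hc t t0 t1

end Pool.Agent.P.MP_192724_nt
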