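import Pool.Agent.P.MP_0ad054_nt.Div

/-!
Few lattice points have a norm with many divisors.
-/

open Finset

namespace Pool.Agent.P.MP_192724_nt

open MP_0ad054_nt (tau tau_nonneg tau_mul_le sum_tau_pow_le)

theorem card_sq_le {α β : Type} [DecidableEq β] (s : Finset α) (S : Finset β) (f : α → β)
    (hf : ∀ a ∈ s, f a ∈ S) : #s ^ 2 ≤ #S * #{p ∈ s ×ˢ s | f p.1 = f p.2} := by
  rw [card_eq_sum_card_fiberwise (f := f) (t := S) hf,
    card_eq_sum_card_fiberwise (s := {p ∈ s ×ˢ s | f p.1 = f p.2}) (f := fun p => f p.1) (t := S)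
      fun p hp => hf _ (mem_product.1 (mem_filter.1 hp).1).1]
  refine sq_sum_le_card_mul_sum_sq.trans (Nat.mul_le_mul_left _ (sum_le_sum fun b _ => ?_))
  rw [sq, ← card_product]
  refine card_le_card fun p hp => ?_
  simp only [mem_product, mem_filter] at hp ⊢
  exact ⟨⟨⟨hp.1.1, hp.2.1⟩, hp.1.2.trans hp.2.2.symm⟩, hp.1.2⟩

theorem fib_le (Q : ℕ) (m : ℤ) :
    (#{p ∈ Icc (1 : ℤ) Q ×ˢ Icc (1 : ℤ) Q | p.1 ^ 2 - p.2 ^ 2 = m} : ℝ) ≤
      (if m = 0 then (Q : ℝ) else 0) + tau m.natAbs := by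
  split_ifs with h
  · have : #{p ∈ Icc (1 : ℤ) Q ×ˢ Icc (1 : ℤ) Q | p.1 ^ 2 - p.2 ^ 2 = m} ≤ #(Icc (1 : ℤ) Q) := by
      refine card_le_card_of_injOn Prod.fst (fun p hp => (mem_product.1 (mem_filter.1 hp).1).1) ?_
      rintro ⟨x, y⟩ h1 ⟨x', y'⟩ h2 h3
      simp only [coe_filter, mem_product, mem_Icc, Set.mem_ofPred_eq, h] at h1 h2 h3
      refine Prod.ext h3 ((pow_left_inj₀ (by omega) (by omega) two_ne_zero).1 ?_)
      rw [h3] at h1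
      linarith [h1.2, h2.2]
    simp only [Int.card_Icc, add_sub_cancel_right, Int.toNat_natCast] at this
    exact le_add_of_le_of_nonneg (by exact_mod_cast this) (tau_nonneg _)
  · rw [zero_add]
    unfold tau
    refine Nat.cast_le.2 (card_le_card_of_injOn (fun p => (p.1 + p.2).natAbs) ?_ ?_)
    · rintro ⟨x, y⟩ h1
      exact mem_coe.2 (Nat.mem_divisors.2 ⟨Int.natAbs_dvd_natAbs.2
        ⟨x - y, by linear_combination -(mem_filter.1 h1).2⟩, Int.natAbs_ne_zero.2 h⟩)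
    · rintro ⟨x, y⟩ h1 ⟨x', y'⟩ h2 h3
      simp only [coe_filter, mem_product, mem_Icc, Set.mem_ofPred_eq] at h1 h2 h3
      have h4 : x + y = x' + y' := by omega
      have h5 : x - y = x' - y' := mul_left_cancel₀ (show x + y ≠ 0 by omega)
        (by linear_combination h1.2 - h2.2 - (x' - y') * h4)
      exact Prod.ext (by simp only; omega) (by simp only; omega)

theorem sum_tau_int (n : ℕ) :
    ∑ m ∈ Icc (-(n : ℤ)) n, tau m.natAbs ≤ 2 * (n * (1 + Real.log n) ^ 2) := by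
  have h1 : ∑ m ∈ Icc (-(n : ℤ)) n, tau m.natAbs ≤ 2 * ∑ m ∈ Icc 1 n, tau m := by
    induction n with
    | zero => simp [tau]
    | succ n ih =>
      have e : Icc (-((n + 1 : ℕ) : ℤ)) (n + 1 : ℕ) =
          insert (-((n + 1 : ℕ) : ℤ)) (insert ((n + 1 : ℕ) : ℤ) (Icc (-(n : ℤ)) n)) := by
        ext m
        simp only [mem_Icc, mem_insert]
        omega
      rw [e, sum_insert (by simp only [mem_Icc, mem_insert]; omega),
        sum_insert (by simp only [mem_Icc]; omega), sum_Icc_succ_top (by omega), Int.natAbs_neg,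
        Int.natAbs_natCast]
      linarith
  have h2 := sum_tau_pow_le 1 n
  simp only [pow_one] at h2
  linarith

/-- the box of lattice points -/
noncomputable def box (Q : ℕ) : Finset (ℤ × ℤ) := Icc (1 : ℤ) Q ×ˢ Icc (-(Q : ℤ)) Q

theorem pairs_le (d : ℤ) (hd : d ≠ 0) (Q : ℕ) (hQ : 1 ≤ Q) :
    (#{p ∈ box Q ×ˢ box Q | p.1.1 ^ 2 + d * p.1.2 ^ 2 = p.2.1 ^ 2 + d * p.2.2 ^ 2} : ℝ) ≤
      22 * |(d : ℝ)| * Q ^ 2 * (1 + Real.log (2 * Q)) ^ 4 := by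
  set I := Icc (-(Q : ℤ)) Q with hI
  have h1 : #{p ∈ box Q ×ˢ box Q | p.1.1 ^ 2 + d * p.1.2 ^ 2 = p.2.1 ^ 2 + d * p.2.2 ^ 2} ≤
      ∑ v ∈ I ×ˢ I, #{p ∈ Icc (1 : ℤ) Q ×ˢ Icc (1 : ℤ) Q |
        p.1 ^ 2 - p.2 ^ 2 = d * ((v.2 - v.1) * (v.2 + v.1))} := by
    rw [← card_sigma]
    refine card_le_card_of_injOn (fun p => ⟨(p.1.2, p.2.2), (p.1.1, p.2.1)⟩) ?_ ?_
    · rintro ⟨⟨x, y⟩, x', y'⟩ h
      simp only [box, coe_filter, mem_product, Set.mem_ofPred_eq] at h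
      simp only [mem_coe, mem_sigma, mem_product, mem_filter]
      exact ⟨⟨h.1.1.2, h.1.2.2⟩, ⟨h.1.1.1, h.1.2.1⟩, by linear_combination h.2⟩
    · rintro ⟨⟨x, y⟩, x', y'⟩ - ⟨⟨a, b⟩, a', b'⟩ - h
      simp only [Sigma.mk.injEq, Prod.mk.injEq, heq_eq_eq] at h ⊢
      tauto
  have h2 : ∑ v ∈ I ×ˢ I, (if d * ((v.2 - v.1) * (v.2 + v.1)) = 0 then (Q : ℝ) else 0) ≤
      6 * Q ^ 2 := by
    rw [← sum_filter, sum_const, nsmul_eq_mul]
    have : #{v ∈ I ×ˢ I | d * ((v.2 - v.1) * (v.2 + v.1)) = 0} ≤ #I + #I := by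
      refine (card_le_card (t := I.image (fun y => (y, y)) ∪ I.image (fun y => (y, -y))) ?_).trans
        ((card_union_le _ _).trans (add_le_add card_image_le card_image_le))
      rintro ⟨y, y'⟩ h
      simp only [mem_filter, mem_product, mul_eq_zero, hd, false_or] at h
      simp only [mem_union, mem_image, Prod.mk.injEq]
      rcases h.2 with h3 | h3
      · exact Or.inl ⟨y, h.1.1, rfl, by omega⟩
      · exact Or.inr ⟨y, h.1.1, rfl, by omega⟩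
    have h3 : #I = 2 * Q + 1 := by rw [hI, Int.card_Icc]; omega
    have h4 : (#{v ∈ I ×ˢ I | d * ((v.2 - v.1) * (v.2 + v.1)) = 0} : ℝ) ≤ 6 * Q := by
      exact_mod_cast (show _ ≤ 6 * Q by omega)
    nlinarith [(Nat.cast_nonneg Q : (0 : ℝ) ≤ Q)]
  have h3 : ∑ v ∈ I ×ˢ I, tau (v.2 - v.1).natAbs * tau (v.2 + v.1).natAbs ≤
      (2 * ((2 * Q : ℕ) * (1 + Real.log (2 * Q : ℕ)) ^ 2)) ^ 2 := by
    refine le_trans ?_ (pow_le_pow_left₀ (sum_nonneg fun _ _ => tau_nonneg _) (sum_tau_int (2 * Q)) 2)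
    rw [sq, sum_mul_sum, ← sum_product']
    refine le_trans (le_of_eq (sum_image (f := fun u : ℤ × ℤ => tau u.1.natAbs * tau u.2.natAbs)
      (g := fun v : ℤ × ℤ => (v.2 - v.1, v.2 + v.1)) ?_).symm)
      (sum_le_sum_of_subset_of_nonneg ?_ fun _ _ _ => mul_nonneg (tau_nonneg _) (tau_nonneg _))
    · rintro ⟨y, y'⟩ - ⟨a, a'⟩ - h
      simp only [Prod.mk.injEq] at h ⊢
      omega
    · intro u hu
      obtain ⟨⟨y, y'⟩, h, rfl⟩ := mem_image.1 hu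
      simp only [hI, mem_product, mem_Icc] at h ⊢
      omega
  have h4 : tau d.natAbs ≤ |(d : ℝ)| := by
    unfold tau
    rw [← Int.cast_abs, ← Int.natCast_natAbs, Int.cast_natCast]
    exact_mod_cast Nat.card_divisors_le_self _
  have h5 : (1 : ℝ) ≤ |(d : ℝ)| := by exact_mod_cast Int.one_le_abs hd
  have h6 : ∑ v ∈ I ×ˢ I, tau (d * ((v.2 - v.1) * (v.2 + v.1))).natAbs ≤
      |(d : ℝ)| * ∑ v ∈ I ×ˢ I, tau (v.2 - v.1).natAbs * tau (v.2 + v.1).natAbs := by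
    rw [mul_sum]
    refine sum_le_sum fun v _ => ?_
    rw [Int.natAbs_mul, Int.natAbs_mul]
    exact (tau_mul_le _ _).trans (mul_le_mul h4 (tau_mul_le _ _) (tau_nonneg _) (by linarith))
  have h7 := sum_le_sum fun v (_ : v ∈ I ×ˢ I) => fib_le Q (d * ((v.2 - v.1) * (v.2 + v.1)))
  rw [sum_add_distrib] at h7
  have h8 := (Nat.cast_le (α := ℝ)).2 h1
  push_cast at h8 h3
  have q1 : (1 : ℝ) ≤ Q := by exact_mod_cast hQ
  have l1 : 1 ≤ (1 + Real.log (2 * Q)) ^ 4 :=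
    one_le_pow₀ (by linarith [Real.log_nonneg (show (1 : ℝ) ≤ 2 * Q by linarith)])
  have h9 := mul_le_mul_of_nonneg_left h3 (show 0 ≤ |(d : ℝ)| by linarith)
  have h10 : 1 * 1 ≤ |(d : ℝ)| * (1 + Real.log (2 * Q)) ^ 4 := by gcongr
  nlinarith [mul_le_mul_of_nonneg_left h10 (sq_nonneg (Q : ℝ))]

/-- the points of the box whose norm has many divisors -/
noncomputable def rich (d : ℤ) (Q : ℕ) (T : ℝ) : Finset (ℤ × ℤ) :=
  {w ∈ box Q | 0 < w.1 ^ 2 + d * w.2 ^ 2 ∧ w.1 ^ 2 + d * w.2 ^ 2 ≤ 2 * Q ^ 2 ∧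
    T < tau (w.1 ^ 2 + d * w.2 ^ 2).natAbs}

theorem rich_le (d : ℤ) (hd : d ≠ 0) (Q : ℕ) (hQ : 1 ≤ Q) {T : ℝ} (hT : 0 ≤ T) :
    (#(rich d Q T) : ℝ) ^ 2 * T ≤ 44 * |(d : ℝ)| * Q ^ 4 * (1 + Real.log (2 * Q ^ 2)) ^ 6 := by
  set S := {n ∈ Icc 1 (2 * Q ^ 2) | T < tau n}
  have h1 := card_sq_le (rich d Q T) S (fun w => (w.1 ^ 2 + d * w.2 ^ 2).natAbs) fun w hw => by
    obtain ⟨-, a1, a2, a3⟩ := mem_filter.1 hw
    refine mem_filter.2 ⟨mem_Icc.2 ⟨by omega, ?_⟩, a3⟩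
    zify
    rwa [abs_of_pos a1]
  have h2 : #{p ∈ rich d Q T ×ˢ rich d Q T | (p.1.1 ^ 2 + d * p.1.2 ^ 2).natAbs =
      (p.2.1 ^ 2 + d * p.2.2 ^ 2).natAbs} ≤
      #{p ∈ box Q ×ˢ box Q | p.1.1 ^ 2 + d * p.1.2 ^ 2 = p.2.1 ^ 2 + d * p.2.2 ^ 2} := by
    refine card_le_card fun p hp => ?_
    obtain ⟨a1, a2⟩ := mem_filter.1 hp
    obtain ⟨a3, a4⟩ := mem_product.1 a1
    obtain ⟨b1, b2, -⟩ := mem_filter.1 a3
    obtain ⟨c1, c2, -⟩ := mem_filter.1 a4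
    exact mem_filter.2 ⟨mem_product.2 ⟨b1, c1⟩, by omega⟩
  have h3 : (#S : ℝ) * T ≤ 2 * Q ^ 2 * (1 + Real.log (2 * Q ^ 2)) ^ 2 := by
    have a1 := sum_tau_pow_le 1 (2 * Q ^ 2)
    simp only [pow_one] at a1
    push_cast at a1
    have a2 := card_nsmul_le_sum S tau T fun n hn => (mem_filter.1 hn).2.le
    rw [nsmul_eq_mul] at a2
    exact a2.trans ((sum_le_sum_of_subset_of_nonneg (filter_subset _ _)
      fun _ _ _ => tau_nonneg _).trans a1)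
  have h4 := pairs_le d hd Q hQ
  have q1 : (1 : ℝ) ≤ Q := by exact_mod_cast hQ
  have h5 : (1 + Real.log (2 * Q)) ^ 4 ≤ (1 + Real.log (2 * Q ^ 2)) ^ 4 := by
    have := Real.log_nonneg (show (1 : ℝ) ≤ 2 * Q by linarith)
    gcongr
    nlinarith
  have h6 : (#(rich d Q T) : ℝ) ^ 2 ≤ #S * (22 * |(d : ℝ)| * Q ^ 2 *
      (1 + Real.log (2 * Q ^ 2)) ^ 4) := by
    refine le_trans (by exact_mod_cast h1.trans (Nat.mul_le_mul_left _ h2))
      (mul_le_mul_of_nonneg_left (h4.trans ?_) (Nat.cast_nonneg _))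
    gcongr
  calc _ ≤ #S * (22 * |(d : ℝ)| * Q ^ 2 * (1 + Real.log (2 * Q ^ 2)) ^ 4) * T := by gcongr
    _ = #S * T * (22 * |(d : ℝ)| * Q ^ 2 * (1 + Real.log (2 * Q ^ 2)) ^ 4) := by ring
    _ ≤ 2 * Q ^ 2 * (1 + Real.log (2 * Q ^ 2)) ^ 2 *
        (22 * |(d : ℝ)| * Q ^ 2 * (1 + Real.log (2 * Q ^ 2)) ^ 4) := by gcongr
    _ = _ := by ring

end Pool.Agent.P.MP_192724_nt
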