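import Pool.Agent.P.MP_192724_nt.Lat
import Pool.Agent.P.MP_192724_nt.Count

/-!
The slopes at which the Liouville function of the norm jumps.
-/

open Finset

namespace Pool.Agent.P.MP_192724_nt

open MP_0ad054_nt (tau tau_nonneg tau_mul_le)

/-- the integers up to `X` with Liouville value `-1` -/
def neg (d : ℤ) (X : ℕ) : Finset ℕ :=
  {n ∈ Icc 1 X | 0 < (n : ℤ) ^ 2 + d ∧ lam ((n : ℤ) ^ 2 + d) = -1}

variable {d : ℤ}

theorem slope_iff (hd : d ≠ 0) {x y : ℤ} (hx : 0 < x) :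
    |(y : ℝ) / x| ≤ 1 / (4 * |(d : ℝ)|) ↔ 4 * |d| * |y| ≤ x := by
  have h1 : (0 : ℝ) < x := by exact_mod_cast hx
  have h2 : (0 : ℝ) < |(d : ℝ)| := abs_pos.2 (by exact_mod_cast hd)
  rw [abs_div, abs_of_pos h1, div_le_div_iff₀ h1 (by positivity), one_mul, mul_comm]
  norm_cast

theorem bil_le (hd : d ≠ 0) {x y x' y' : ℤ} (h : 4 * |d| * |y| ≤ x) (h' : 4 * |d| * |y'| ≤ x') :
    16 * |d * y * y'| ≤ x * x' := by
  have h1 := Int.one_le_abs hd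
  have h2 := mul_le_mul h h' (by positivity) (le_trans (by positivity) h)
  have h3 : 0 ≤ |d| * |y| * |y'| := by positivity
  rw [abs_mul, abs_mul]
  nlinarith

theorem norm_bd (hd : d ≠ 0) {x y : ℤ} (h : 4 * |d| * |y| ≤ x) :
    15 * x ^ 2 ≤ 16 * (x ^ 2 + d * y ^ 2) ∧ 16 * (x ^ 2 + d * y ^ 2) ≤ 17 * x ^ 2 := by
  have h1 := bil_le hd h h
  constructor <;> nlinarith [le_abs_self (d * y * y), neg_abs_le (d * y * y)]

theorem norm_pos (hd : d ≠ 0) {x y : ℤ} (hx : 0 < x) (h : 4 * |d| * |y| ≤ x) :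
    0 < x ^ 2 + d * y ^ 2 := by
  nlinarith [(norm_bd hd h).1]

theorem slope_unique (hd : d ≠ 0) {x y x' y' b : ℤ} (hx : 0 < x) (hx' : 0 < x')
    (h : 4 * |d| * |y| ≤ x) (h' : 4 * |d| * |y'| ≤ x')
    (e : x ^ 2 + d * y ^ 2 = x' ^ 2 + d * y' ^ 2) (h1 : x ^ 2 + d * y ^ 2 ∣ x + b * y)
    (h2 : x' ^ 2 + d * y' ^ 2 ∣ x' + b * y') : x * y' = y * x' := by
  have a1 := (norm_bd hd h).1
  have a2 := (norm_bd hd h').1
  rw [← e] at a2 h2
  have a3 : x ^ 2 + d * y ^ 2 ∣ x * y' - y * x' := by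
    rw [show x * y' - y * x' = (x + b * y) * y' - (x' + b * y') * y by ring]
    exact (h1.mul_right y').sub (h2.mul_right y)
  have a4 := Int.one_le_abs hd
  have a5 : 4 * |y| ≤ x := by nlinarith [abs_nonneg y]
  have a6 : 4 * |y'| ≤ x' := by nlinarith [abs_nonneg y']
  refine sub_eq_zero.1 (Int.eq_zero_of_abs_lt_dvd a3 ?_)
  have a7 := abs_sub (x * y') (y * x')
  rw [abs_mul, abs_mul, abs_of_pos hx, abs_of_pos hx'] at a7
  nlinarith [sq_nonneg (x - x'), mul_le_mul_of_nonneg_left a6 hx.le,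
    mul_le_mul_of_nonneg_left a5 hx'.le, mul_pos hx hx']

theorem mem_box {Q : ℕ} (hd : d ≠ 0) {x y : ℤ} (hx : 0 < x) (hQ : x ≤ Q)
    (h : 4 * |d| * |y| ≤ x) : (x, y) ∈ box Q := by
  have a4 := Int.one_le_abs hd
  have a5 : |y| ≤ Q := by nlinarith [abs_nonneg y]
  exact mem_product.2 ⟨mem_Icc.2 ⟨hx, hQ⟩, mem_Icc.2 (abs_le.1 a5)⟩

theorem edge_in (hd : d ≠ 0) (Q : ℕ) {lo hi : ℝ} (h1 : |lo| ≤ 1 / (4 * |(d : ℝ)|))
    (h2 : |hi| ≤ 1 / (4 * |(d : ℝ)|)) {x y x' y' : ℤ} (a1 : 0 < x) (a2 : x ≤ Q) (b1 : 0 < x')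
    (b2 : x' ≤ Q) (a3 : (y : ℝ) / x ∈ Set.Icc lo hi) (b3 : (y' : ℝ) / x' ∈ Set.Icc lo hi)
    (h : lam (x ^ 2 + d * y ^ 2) ≠ lam (x' ^ 2 + d * y' ^ 2)) :
    ∃ x y x' y' : ℤ, (0 < x ∧ x ≤ Q ∧ (y : ℝ) / x ∈ Set.Icc lo hi) ∧
      (0 < x' ∧ x' ≤ Q ∧ (y' : ℝ) / x' ∈ Set.Icc lo hi) ∧ x * y' - y * x' = 1 ∧
      lam (x ^ 2 + d * y ^ 2) ≠ lam (x' ^ 2 + d * y' ^ 2) := by
  have hN : ∀ x y : ℤ, 0 < x → (y : ℝ) / x ∈ Set.Icc lo hi → x ^ 2 + d * y ^ 2 ≠ 0 :=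
    fun x y hx hs => (norm_pos hd hx ((slope_iff hd hx).1
      (abs_le.2 ⟨(abs_le.1 h1).1.trans hs.1, hs.2.trans (abs_le.1 h2).2⟩))).ne'
  have key := jump (fun x y => 0 < x ∧ x ≤ Q ∧ (y : ℝ) / x ∈ Set.Icc lo hi)
    (fun x y => lam (x ^ 2 + d * y ^ 2))
    (by
      rintro x y x' y' p q s t D ⟨a1, a2, a3⟩ ⟨b1, b2, b3⟩ s0 t0 h1 h2 h3 h4
      have D0 : 0 < D := by omega
      have p0 : 0 < p := pos_of_mul_pos_right (a := D) (by
        nlinarith [mul_le_mul_of_nonneg_left (show 1 ≤ x by omega) s0,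
          mul_le_mul_of_nonneg_left (show 1 ≤ x' by omega) t0]) D0.le
      refine ⟨p0, le_of_mul_le_mul_left (a := D) ?_ D0, ?_⟩
      · nlinarith [mul_le_mul_of_nonneg_left a2 s0, mul_le_mul_of_nonneg_left b2 t0,
          mul_le_mul_of_nonneg_right h2 (show (0 : ℤ) ≤ Q by omega)]
      · have c1 : (0 : ℝ) < x := by exact_mod_cast a1
        have c2 : (0 : ℝ) < x' := by exact_mod_cast b1
        have c3 : (0 : ℝ) < p := by exact_mod_cast p0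
        have c4 : (0 : ℝ) < D := by exact_mod_cast D0
        have c5 : (0 : ℝ) ≤ s := by exact_mod_cast s0
        have c6 : (0 : ℝ) ≤ t := by exact_mod_cast t0
        have c7 : (D : ℝ) * p = s * x + t * x' := by exact_mod_cast h3
        have c8 : (D : ℝ) * q = s * y + t * y' := by exact_mod_cast h4
        rw [Set.mem_Icc, le_div_iff₀ (by assumption), div_le_iff₀ (by assumption)] at a3 b3 ⊢
        constructor <;> refine le_of_mul_le_mul_left ?_ c4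
        · rw [c8, mul_left_comm, c7]
          nlinarith [mul_le_mul_of_nonneg_left a3.1 c5, mul_le_mul_of_nonneg_left b3.1 c6]
        · rw [c8, mul_left_comm, c7]
          nlinarith [mul_le_mul_of_nonneg_left a3.2 c5, mul_le_mul_of_nonneg_left b3.2 c6])
    (by
      rintro x y p q t D ⟨a1, -, a3⟩ ⟨b1, -, b3⟩ t0 D0 h1 h2
      exact lam_dir (hN _ _ a1 a3) (hN _ _ b1 b3) t0.ne' D0.ne' h1 h2)
  rcases lt_trichotomy (x * y' - y * x') 0 with h3 | h3 | h3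
  · exact key (x' * y - y' * x).toNat x' y' x y ⟨b1, b2, b3⟩ ⟨a1, a2, a3⟩
      (Int.toNat_of_nonneg (by linarith)).symm (Int.lt_toNat.2 (by push_cast; linarith)) h.symm
  · exact absurd (lam_dir (hN _ _ b1 b3) (hN _ _ a1 a3) a1.ne' b1.ne' (mul_comm _ _)
      (by linarith)) h
  · exact key (x * y' - y * x').toNat x y x' y' ⟨a1, a2, a3⟩ ⟨b1, b2, b3⟩
      (Int.toNat_of_nonneg h3.le).symm (Int.lt_toNat.2 h3) h

theorem exists_J (hd : d ≠ 0) (Q X : ℕ) (hX : 2 * Q ^ 2 ≤ X) {T : ℝ} (hT : 0 ≤ T) :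
    ∃ J : Finset ℝ, (#J : ℝ) ≤ #(neg d X) * T ^ 2 + #(rich d Q T) ∧
      ∀ x y x' y' : ℤ, 0 < x → x ≤ Q → 0 < x' → x' ≤ Q → |(y : ℝ) / x| ≤ 1 / (4 * |(d : ℝ)|) →
        |(y' : ℝ) / x'| ≤ 1 / (4 * |(d : ℝ)|) →
        lam (x ^ 2 + d * y ^ 2) ≠ lam (x' ^ 2 + d * y' ^ 2) →
        ∃ s ∈ J, s ∈ Set.uIcc ((y : ℝ) / x) ((y' : ℝ) / x') := by
  classical
  let t : Finset (Σ _ : ℕ, ℕ) := ((neg d X).filter fun b : ℕ =>
    tau ((b : ℤ) ^ 2 + d).natAbs ≤ T ^ 2).sigma fun b : ℕ => ((b : ℤ) ^ 2 + d).natAbs.divisors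
  let r : ℝ → (Σ _ : ℕ, ℕ) → Prop := fun s z => ∃ x y : ℤ, 0 < x ∧ 4 * |d| * |y| ≤ x ∧
    s = y / x ∧ x ^ 2 + d * y ^ 2 = z.2 ∧ x ^ 2 + d * y ^ 2 ∣ x + z.1 * y
  let sl : ℤ × ℤ → ℝ := fun w => w.2 / w.1
  refine ⟨{s ∈ (box Q).image sl | ∃ z ∈ t, r s z} ∪ (rich d Q T).image sl, ?_, ?_⟩
  · have h1 : #{s ∈ (box Q).image sl | ∃ z ∈ t, r s z} ≤ #t := by
      refine card_le_card_of_forall_subsingleton r (fun s hs => (mem_filter.1 hs).2) ?_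
      rintro z - s ⟨-, x, y, a1, a2, rfl, a3, a4⟩ s' ⟨-, x', y', b1, b2, rfl, b3, b4⟩
      have := slope_unique hd a1 b1 a2 b2 (a3.trans b3.symm) a4 b4
      rw [div_eq_div_iff (by exact_mod_cast a1.ne') (by exact_mod_cast b1.ne')]
      exact_mod_cast (by linarith : y * x' = y' * x)
    have h2 : (#t : ℝ) ≤ #(neg d X) * T ^ 2 := by
      rw [card_sigma]
      push_cast
      refine (sum_le_card_nsmul _ _ (T ^ 2) fun b hb => (mem_filter.1 hb).2).trans ?_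
      rw [nsmul_eq_mul]
      gcongr
      exact filter_subset _ _
    have h3 := (card_union_le _ _).trans (add_le_add h1 (card_image_le (s := rich d Q T) (f := sl)))
    have h4 := (Nat.cast_le (α := ℝ)).2 h3
    push_cast at h4
    linarith
  · intro x y x' y' a1 a2 b1 b2 a3 b3 h
    obtain ⟨u, v, u', v', ⟨c1, c2, c3⟩, ⟨e1, e2, e3⟩, h1, h2⟩ := edge_in hd Q
      (lo := min ((y : ℝ) / x) ((y' : ℝ) / x')) (hi := max ((y : ℝ) / x) ((y' : ℝ) / x'))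
      (by rcases min_choice ((y : ℝ) / x) ((y' : ℝ) / x') with h | h <;> rwa [h])
      (by rcases max_choice ((y : ℝ) / x) ((y' : ℝ) / x') with h | h <;> rwa [h])
      a1 a2 b1 b2 Set.left_mem_uIcc Set.right_mem_uIcc h
    have sm : ∀ s ∈ Set.uIcc ((y : ℝ) / x) ((y' : ℝ) / x'), |s| ≤ 1 / (4 * |(d : ℝ)|) :=
      fun s hs => abs_le.2 (Set.uIcc_subset_Icc (abs_le.1 a3) (abs_le.1 b3) hs)
    have c4 := (slope_iff hd c1).1 (sm _ c3)
    have e4 := (slope_iff hd e1).1 (sm _ e3)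
    have c5 := norm_pos hd c1 c4
    have e5 := norm_pos hd e1 e4
    by_cases g1 : T < tau (u ^ 2 + d * v ^ 2).natAbs
    · exact ⟨_, mem_union_right _ (mem_image_of_mem sl (mem_filter.2 ⟨mem_box hd c1 c2 c4, c5,
        by nlinarith [(norm_bd hd c4).2], g1⟩)), c3⟩
    by_cases g2 : T < tau (u' ^ 2 + d * v' ^ 2).natAbs
    · exact ⟨_, mem_union_right _ (mem_image_of_mem sl (mem_filter.2 ⟨mem_box hd e1 e2 e4, e5,
        by nlinarith [(norm_bd hd e4).2], g2⟩)), e3⟩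
    have f1 := bil_le hd c4 e4
    have f2 := mul_pos c1 e1
    have f3 : u * u' ≤ (Q : ℤ) ^ 2 := by nlinarith
    have f4 : 2 * (Q : ℤ) ^ 2 ≤ X := by exact_mod_cast hX
    obtain ⟨b, hb⟩ := Int.eq_ofNat_of_zero_le (show 0 ≤ u * u' + d * v * v' by
      linarith [neg_abs_le (d * v * v')])
    have f5 : (b : ℤ) ^ 2 + d = (u ^ 2 + d * v ^ 2) * (u' ^ 2 + d * v' ^ 2) := by
      rw [← hb]
      linear_combination -d * (u * v' - v * u' + 1) * h1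
    have f6 : 1 ≤ b ∧ b ≤ X := by
      zify
      constructor <;> linarith [neg_abs_le (d * v * v'), le_abs_self (d * v * v')]
    refine ⟨_, mem_union_left _ (mem_filter.2 ⟨mem_image_of_mem sl (mem_box hd c1 c2 c4),
      ⟨b, (u ^ 2 + d * v ^ 2).natAbs⟩, mem_sigma.2 ⟨mem_filter.2 ⟨mem_filter.2 ⟨mem_Icc.2 f6, ?_⟩,
        ?_⟩, ?_⟩, u, v, c1, c4, rfl, ?_, v', ?_⟩), c3⟩
    · rw [f5]
      exact ⟨mul_pos c5 e5, lam_mul_of_ne c5.ne' e5.ne' h2⟩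
    · simp only
      rw [f5, Int.natAbs_mul, sq T]
      exact (tau_mul_le _ _).trans (mul_le_mul (not_lt.1 g1) (not_lt.1 g2) (tau_nonneg _) hT)
    · simp only
      rw [f5]
      exact Nat.mem_divisors.2 ⟨Int.natAbs_dvd_natAbs.2 (dvd_mul_right _ _),
        Int.natAbs_ne_zero.2 (mul_pos c5 e5).ne'⟩
    · simp only [Int.natCast_natAbs, abs_of_pos c5]
    · simp only
      rw [← hb]
      linear_combination -u * h1

end Pool.Agent.P.MP_192724_nt
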