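import Mathlib

/-!
The Liouville function on values of `x ^ 2 + d y ^ 2`: Farey edges and a first sign change.
-/

namespace Pool.Agent.P.MP_192724_nt

/-- the Liouville function of the absolute value -/
def lam (n : ℤ) : ℤ := (-1) ^ ArithmeticFunction.cardFactors n.natAbs

theorem lam_mul {a b : ℤ} (ha : a ≠ 0) (hb : b ≠ 0) : lam (a * b) = lam a * lam b := by
  unfold lam
  rw [Int.natAbs_mul, ArithmeticFunction.cardFactors_mul (Int.natAbs_ne_zero.2 ha)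
    (Int.natAbs_ne_zero.2 hb), pow_add]

theorem lam_or (a : ℤ) : lam a = 1 ∨ lam a = -1 := neg_one_pow_eq_or ℤ _

theorem lam_mul_self (a : ℤ) : lam a * lam a = 1 := by
  rcases lam_or a with h | h <;> simp [h]

theorem lam_ne_zero (a : ℤ) : lam a ≠ 0 := by
  rcases lam_or a with h | h <;> simp [h]

theorem lam_sq_mul {k n : ℤ} (hk : k ≠ 0) (hn : n ≠ 0) : lam (k ^ 2 * n) = lam n := by
  rw [sq, lam_mul (mul_ne_zero hk hk) hn, lam_mul hk hk, lam_mul_self, one_mul]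

theorem lam_prime {p : ℕ} (hp : p.Prime) : lam p = -1 := by
  simp [lam, ArithmeticFunction.cardFactors_apply_prime hp]

theorem lam_one : lam 1 = 1 := by simp [lam]

theorem lam_mul_of_ne {a b : ℤ} (ha : a ≠ 0) (hb : b ≠ 0) (h : lam a ≠ lam b) :
    lam (a * b) = -1 := by
  rw [lam_mul ha hb]
  rcases lam_or a with h1 | h1 <;> rcases lam_or b with h2 | h2 <;> simp_all

theorem lam_dir {d x y p q t D : ℤ} (h : x ^ 2 + d * y ^ 2 ≠ 0) (h' : p ^ 2 + d * q ^ 2 ≠ 0)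
    (ht : t ≠ 0) (hD : D ≠ 0) (h1 : D * p = t * x) (h2 : D * q = t * y) :
    lam (p ^ 2 + d * q ^ 2) = lam (x ^ 2 + d * y ^ 2) := by
  rw [← lam_sq_mul hD h', ← lam_sq_mul ht h]
  congr 1
  linear_combination (D * p + t * x) * h1 + d * (D * q + t * y) * h2

theorem exists_mid {x y x' y' n : ℤ} (h : x * y' - y * x' = n) (hn : 2 ≤ n) :
    ∃ s t p q : ℤ, 0 ≤ s ∧ 0 ≤ t ∧ s < n ∧ t < n ∧ 0 < s + t ∧ s + t ≤ n ∧
      n * p = s * x + t * x' ∧ n * q = s * y + t * y' := by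
  have hn0 : n ≠ 0 := by omega
  have key : ∀ a b : ℤ, n ∣ a * x + b * x' → n ∣ a * y + b * y' → ¬ (n ∣ a ∧ n ∣ b) →
      ∃ s t p q : ℤ, 0 ≤ s ∧ 0 ≤ t ∧ s < n ∧ t < n ∧ 0 < s + t ∧ s + t ≤ n ∧
        n * p = s * x + t * x' ∧ n * q = s * y + t * y' := by
    rintro a b ⟨p, hp⟩ ⟨q, hq⟩ hab
    have a1 := Int.emod_nonneg a hn0
    have a2 := Int.emod_lt_of_pos a (show 0 < n by omega)
    have b1 := Int.emod_nonneg b hn0
    have b2 := Int.emod_lt_of_pos b (show 0 < n by omega)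
    have a3 := Int.emod_add_mul_ediv a n
    have b3 := Int.emod_add_mul_ediv b n
    have h0 : 0 < a % n + b % n := by
      by_contra h0
      exact hab ⟨Int.dvd_of_emod_eq_zero (by omega), Int.dvd_of_emod_eq_zero (by omega)⟩
    by_cases h1 : a % n + b % n ≤ n
    · exact ⟨a % n, b % n, p - a / n * x - b / n * x', q - a / n * y - b / n * y', a1, b1, a2, b2,
        h0, h1, by linear_combination -hp - x * a3 - x' * b3,
        by linear_combination -hq - y * a3 - y' * b3⟩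
    · exact ⟨n - a % n, n - b % n, x + x' - (p - a / n * x - b / n * x'),
        y + y' - (q - a / n * y - b / n * y'), by omega, by omega, by omega, by omega, by omega,
        by omega, by linear_combination hp + x * a3 + x' * b3,
        by linear_combination hq + y * a3 + y' * b3⟩
  by_cases h1 : n ∣ y' ∧ n ∣ -y
  · refine key (-x') x ⟨0, by ring⟩ ⟨1, by linear_combination h⟩ ?_
    rintro ⟨h2, h3⟩
    obtain ⟨⟨a, ha⟩, ⟨b, hb⟩⟩ := h1
    obtain ⟨c, hc⟩ := h2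
    obtain ⟨e, he⟩ := h3
    have h4 : n * (n * (e * a - b * c)) = n * 1 := by
      linear_combination h - y' * he - n * e * ha - x' * hb + n * b * hc
    have h5 := mul_left_cancel₀ hn0 h4
    have := Int.eq_one_of_mul_eq_one_right (by omega) h5
    omega
  · exact key y' (-y) ⟨1, by linear_combination h⟩ ⟨0, by ring⟩ h1

/-- a sign change between two vectors gives a sign change along a Farey edge -/
theorem jump (C : ℤ → ℤ → Prop) (L : ℤ → ℤ → ℤ)
    (hC : ∀ x y x' y' p q s t D, C x y → C x' y' → 0 ≤ s → 0 ≤ t → 0 < s + t → s + t ≤ D →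
      D * p = s * x + t * x' → D * q = s * y + t * y' → C p q)
    (hL : ∀ x y p q t D, C x y → C p q → 0 < t → 0 < D → D * p = t * x → D * q = t * y →
      L p q = L x y) (n : ℕ) :
    ∀ x y x' y', C x y → C x' y' → x * y' - y * x' = n → 0 < n → L x y ≠ L x' y' →
      ∃ x y x' y', C x y ∧ C x' y' ∧ x * y' - y * x' = 1 ∧ L x y ≠ L x' y' := by
  induction n using Nat.strong_induction_on with
  | _ n ih =>
  intro x y x' y' c c' h hn hl
  rcases (show n = 1 ∨ 2 ≤ n by omega) with rfl | h2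
  · exact ⟨x, y, x', y', c, c', h, hl⟩
  obtain ⟨s, t, p, q, s0, t0, s1, t1, h3, h4, h5, h6⟩ := exists_mid h (by exact_mod_cast h2)
  have hn0 : (0 : ℤ) < n := by exact_mod_cast hn
  have c'' := hC x y x' y' p q s t n c c' s0 t0 h3 h4 h5 h6
  have d1 : x * q - y * p = t :=
    mul_left_cancel₀ hn0.ne' (by linear_combination x * h6 - y * h5 + t * h)
  have d2 : p * y' - q * x' = s :=
    mul_left_cancel₀ hn0.ne' (by linear_combination y' * h5 - x' * h6 + s * h)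
  lift s to ℕ using s0
  lift t to ℕ using t0
  by_cases h7 : L x y = L p q
  · refine ih s (by omega) p q x' y' c'' c' d2 (Nat.pos_of_ne_zero ?_) (h7 ▸ hl)
    rintro rfl
    exact hl (h7.trans (hL x' y' p q t n c' c'' (by omega) hn0 (by simpa using h5)
      (by simpa using h6)))
  · refine ih t (by omega) x y p q c c'' d1 (Nat.pos_of_ne_zero ?_) h7
    rintro rfl
    exact h7 (hL x y p q s n c c'' (by omega) hn0 (by simpa using h5) (by simpa using h6)).symm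

theorem exists_root {d : ℤ} (hd : d ≠ 0) : ∃ (p : ℕ) (r : ℤ), p.Prime ∧ d.natAbs < p ∧
    p ≡ 1 [MOD 4 * d.natAbs] ∧ (p : ℤ) ∣ r ^ 2 + d := by
  have h0 : 0 < d.natAbs := Int.natAbs_pos.2 hd
  obtain ⟨p, hp, h1, h2⟩ := Nat.exists_prime_gt_modEq_one (k := 4 * d.natAbs) (d.natAbs + 1)
    (by omega)
  have := Fact.mk hp
  have h3 : jacobiSym (-d) p = 1 := by
    rw [jacobiSym.mod_right (-d) (hp.odd_of_ne_two (by omega)), Int.natAbs_neg, h2,
      Nat.mod_eq_of_lt (by omega), jacobiSym.one_right]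
  obtain ⟨r, hr⟩ := ZMod.isSquare_of_jacobiSym_eq_one h3
  obtain ⟨r, rfl⟩ := ZMod.intCast_surjective r
  refine ⟨p, r, hp, by omega, h2, (ZMod.intCast_zmod_eq_zero_iff_dvd _ _).1 ?_⟩
  push_cast at hr ⊢
  linear_combination -hr

theorem thue (p D : ℕ) (hp : 0 < p) (hD : 0 < D) (r : ℤ) : ∃ x y z : ℤ,
    ¬ (x = 0 ∧ y = 0 ∧ z = 0) ∧ x ^ 2 ≤ p * D ∧ y ^ 2 ≤ p ∧ z ^ 2 ≤ D ∧
      (p : ℤ) ∣ x - r * y ∧ (D : ℤ) ∣ x - z := by
  have : NeZero p := ⟨hp.ne'⟩
  have : NeZero D := ⟨hD.ne'⟩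
  have hc : Fintype.card (ZMod p × ZMod D) <
      Fintype.card (Fin ((p * D).sqrt + 1) × Fin (p.sqrt + 1) × Fin (D.sqrt + 1)) := by
    simp only [Fintype.card_prod, ZMod.card, Fintype.card_fin]
    refine lt_of_mul_self_lt_mul_self₀ (Nat.zero_le _) ?_
    have h1 := Nat.lt_succ_sqrt (p * D)
    have h2 := Nat.lt_succ_sqrt p
    have h3 := Nat.lt_succ_sqrt D
    have := Nat.mul_lt_mul'' h1 (Nat.mul_lt_mul'' h2 h3)
    simp only [Nat.succ_eq_add_one] at this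
    linarith
  obtain ⟨⟨a, b, c⟩, ⟨a', b', c'⟩, hne, h⟩ := Fintype.exists_ne_map_eq_of_card_lt
    (fun v : Fin ((p * D).sqrt + 1) × Fin (p.sqrt + 1) × Fin (D.sqrt + 1) =>
      (((((v.1 : ℕ) : ℤ) - r * (v.2.1 : ℕ) : ℤ) : ZMod p), ((((v.1 : ℕ) : ℤ) - (v.2.2 : ℕ) : ℤ) :
        ZMod D))) hc
  have sq : ∀ (n : ℕ) (u v : Fin (n.sqrt + 1)), (((u : ℕ) : ℤ) - (v : ℕ)) ^ 2 ≤ n := by
    intro n u v
    have h1 : ((n.sqrt : ℤ)) ^ 2 ≤ n := by exact_mod_cast Nat.sqrt_le' n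
    have h2 := u.2
    have h3 := v.2
    exact (sq_le_sq' (by omega) (by omega)).trans h1
  obtain ⟨h1, h2⟩ := Prod.ext_iff.1 h
  rw [ZMod.intCast_eq_intCast_iff_dvd_sub] at h1 h2
  refine ⟨(a' : ℕ) - (a : ℕ), (b' : ℕ) - (b : ℕ), (c' : ℕ) - (c : ℕ), ?_,
    by exact_mod_cast sq _ a' a, sq _ b' b, sq _ c' c, ?_, ?_⟩
  · rintro ⟨e1, e2, e3⟩
    exact hne (Prod.ext (Fin.ext (by simp only; omega))
      (Prod.ext (Fin.ext (by simp only; omega)) (Fin.ext (by simp only; omega))))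
  · convert h1 using 1
    ring
  · convert h2 using 1
    ring

theorem exists_rel {d : ℤ} (hd : d ≠ 0) (h1 : d ≠ 1) (h2 : ∀ m : ℤ, d ≠ -m ^ 2) :
    ∃ (p : ℕ) (x y z w : ℤ), p.Prime ∧ z ^ 2 + d * w ^ 2 ≠ 0 ∧
      x ^ 2 + d * y ^ 2 = p * (z ^ 2 + d * w ^ 2) := by
  obtain ⟨p, r, hp, a1, a2, a3⟩ := exists_root hd
  have h0 : 0 < d.natAbs := Int.natAbs_pos.2 hd
  obtain ⟨x, y, z, b0, b1, b2, b3, b4, b5⟩ := thue p d.natAbs hp.pos h0 r
  have hp' : Prime (p : ℤ) := Nat.prime_iff_prime_int.1 hp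
  have p0 : (0 : ℤ) < p := by exact_mod_cast hp.pos
  have c1 : y ^ 2 ≠ p := fun h => hp'.not_isSquare ⟨y, by rw [← h, sq]⟩
  have c0 : ¬ p ∣ d.natAbs := fun h => absurd (Nat.le_of_dvd h0 h) (by omega)
  have c2 : x ^ 2 ≠ p * d.natAbs := by
    intro h
    obtain ⟨k, rfl⟩ := hp'.dvd_of_dvd_pow (show (p : ℤ) ∣ x ^ 2 from ⟨_, h⟩)
    refine c0 (Int.natCast_dvd_natCast.1 ⟨k ^ 2, mul_left_cancel₀ p0.ne' ?_⟩)
    linear_combination -h
  have c3 : ((d.natAbs : ℕ) : ℤ) ∣ (p : ℤ) - 1 :=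
    (Dvd.intro_left 4 (by push_cast; ring)).trans (Nat.modEq_iff_dvd.1 a2.symm)
  have c4 : ((d.natAbs : ℕ) : ℤ) ∣ d := Int.natAbs_dvd.2 dvd_rfl
  have c5 : (p : ℤ) * d.natAbs ∣ x ^ 2 + d * y ^ 2 - p * z ^ 2 := by
    refine (Nat.isCoprime_iff_coprime.2 ((Nat.Prime.coprime_iff_not_dvd hp).2 c0)).mul_dvd ?_ ?_
    · obtain ⟨u, hu⟩ := b4
      obtain ⟨v, hv⟩ := a3
      exact ⟨u * (x + r * y) + v * y ^ 2 - z ^ 2, by linear_combination (x + r * y) * hu + y ^ 2 * hv⟩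
    · obtain ⟨u, hu⟩ := b5
      obtain ⟨v, hv⟩ := c3
      obtain ⟨w, hw⟩ := c4
      exact ⟨u * (x + z) + w * y ^ 2 - v * z ^ 2, by
        linear_combination (x + z) * hu + y ^ 2 * hw - z ^ 2 * hv⟩
  obtain ⟨k, hk⟩ := c5
  have nsq : ∀ x y : ℤ, x ^ 2 + d * y ^ 2 = 0 → y = 0 := by
    intro x y h
    by_contra hy
    obtain ⟨m, rfl⟩ := (Int.pow_dvd_pow_iff two_ne_zero).1
      (show y ^ 2 ∣ x ^ 2 from ⟨-d, by linear_combination h⟩)
    exact h2 m (mul_left_cancel₀ (pow_ne_zero 2 hy) (by linear_combination h))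
  have zero : x ^ 2 + d * y ^ 2 - p * z ^ 2 = 0 → ∃ (p : ℕ) (x y z w : ℤ), p.Prime ∧
      z ^ 2 + d * w ^ 2 ≠ 0 ∧ x ^ 2 + d * y ^ 2 = p * (z ^ 2 + d * w ^ 2) := by
    intro h
    refine ⟨p, x, y, z, 0, hp, fun h3 => ?_, by linear_combination h⟩
    have h4 : z = 0 := by simpa using h3
    have h5 : y = 0 := nsq x y (by rw [h4] at h; linear_combination h)
    exact b0 ⟨by rw [h4, h5] at h; simpa using h, h5, h4⟩
  have one : x ^ 2 + d * y ^ 2 - p * z ^ 2 = p * d → ∃ (p : ℕ) (x y z w : ℤ), p.Prime ∧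
      z ^ 2 + d * w ^ 2 ≠ 0 ∧ x ^ 2 + d * y ^ 2 = p * (z ^ 2 + d * w ^ 2) := fun h =>
    ⟨p, x, y, z, 1, hp, fun h3 => one_ne_zero (nsq z 1 h3), by linear_combination h⟩
  have e1 : y ^ 2 < p := lt_of_le_of_ne b2 c1
  have e2 := lt_of_le_of_ne b1 c2
  have e3 := sq_nonneg x
  have e4 := sq_nonneg y
  have e5 := sq_nonneg z
  rcases lt_or_gt_of_ne hd with hd' | hd'
  · have e : ((d.natAbs : ℕ) : ℤ) = -d := by rw [Int.natCast_natAbs, abs_of_neg hd']
    rw [e] at hk e2 b3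
    have q0 : 0 < p * -d := by nlinarith
    have k1 : k < 1 := lt_of_mul_lt_mul_left (a := p * -d) (by nlinarith) q0.le
    have k2 : -2 < k := lt_of_mul_lt_mul_left (a := p * -d) (by nlinarith) q0.le
    rcases (show k = 0 ∨ k = -1 by omega) with rfl | rfl
    · exact zero (by linear_combination hk)
    · exact one (by linear_combination hk)
  · have e : ((d.natAbs : ℕ) : ℤ) = d := by rw [Int.natCast_natAbs, abs_of_pos hd']
    rw [e] at hk e2 b3 b5
    have q0 : 0 < p * d := by positivity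
    have k1 : k < 2 := lt_of_mul_lt_mul_left (a := p * d) (by nlinarith) q0.le
    have k2 : -1 ≤ k := le_of_mul_le_mul_left (a := p * d) (by nlinarith) q0
    rcases (show k = 0 ∨ k = 1 ∨ k = -1 by omega) with rfl | rfl | rfl
    · exact zero (by linear_combination hk)
    · exact one (by linear_combination hk)
    · exfalso
      have f1 : x ^ 2 = 0 := by nlinarith
      have f2 : z ^ 2 = d := by nlinarith
      obtain ⟨u, hu⟩ := b5
      have f3 : x = 0 := by simpa using f1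
      have f4 : d * (d * u ^ 2) = d * 1 := by
        rw [show z = -(d * u) by linarith] at f2
        linear_combination f2
      exact h1 (Int.eq_one_of_mul_eq_one_right hd'.le (mul_left_cancel₀ hd f4))

theorem exists_neg {d : ℤ} (hd : d ≠ 0) : ∃ x y : ℤ, 0 ≤ x ∧ 0 ≤ y ∧ 0 < x ^ 2 + d * y ^ 2 ∧
    lam (x ^ 2 + d * y ^ 2) = -1 := by
  suffices h : ∃ x y : ℤ, 0 < x ^ 2 + d * y ^ 2 ∧ lam (x ^ 2 + d * y ^ 2) = -1 by
    obtain ⟨x, y, h⟩ := h
    exact ⟨|x|, |y|, abs_nonneg _, abs_nonneg _, by rwa [sq_abs, sq_abs]⟩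
  by_cases h1 : d = 1
  · exact ⟨1, 1, by simp [h1], by rw [h1]; exact lam_prime Nat.prime_two⟩
  by_cases h2 : ∀ m : ℤ, d ≠ -m ^ 2
  · obtain ⟨p, x, y, z, w, hp, h3, h4⟩ := exists_rel hd h1 h2
    have p0 : (0 : ℤ) < p := by exact_mod_cast hp.pos
    have e : (x * z - d * y * w) ^ 2 + d * (x * w + y * z) ^ 2 = (z ^ 2 + d * w ^ 2) ^ 2 * p := by
      linear_combination (z ^ 2 + d * w ^ 2) * h4
    exact ⟨_, _, by rw [e]; positivity, by rw [e, lam_sq_mul h3 p0.ne', lam_prime hp]⟩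
  · push Not at h2
    obtain ⟨m, rfl⟩ := h2
    have hm : m ≠ 0 := by rintro rfl; simp at hd
    obtain ⟨p, hp, -, h3⟩ := Nat.exists_prime_gt_modEq_one (k := 2 * m.natAbs) 0
      (by have := Int.natAbs_pos.2 hm; omega)
    obtain ⟨k, hk⟩ := Nat.modEq_iff_dvd.1 h3.symm
    have e : (1 + |m| * k) ^ 2 + -m ^ 2 * k ^ 2 = p := by
      push_cast at hk
      linear_combination -hk + k ^ 2 * sq_abs m
    exact ⟨_, _, by rw [e]; exact_mod_cast hp.pos, by rw [e, lam_prime hp]⟩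

theorem exists_edge {d : ℤ} (hd : d ≠ 0) : ∃ a b c : ℤ, 0 < a ∧ 0 ≤ b ∧ 0 < c ∧
    a * c = b ^ 2 + d ∧ lam a ≠ lam c := by
  obtain ⟨u, v, hu, hv, h0, h1⟩ := exists_neg hd
  have hv' : v ≠ 0 := by
    rintro rfl
    have hu' : u ≠ 0 := by rintro rfl; simp at h0
    rw [show u ^ 2 + d * 0 ^ 2 = u ^ 2 * 1 by ring, lam_sq_mul hu' one_ne_zero, lam_one] at h1
    omega
  have hN : ∀ x y : ℤ, 0 ≤ x → 0 ≤ y → u * y ≤ v * x → 0 < x + y → 0 < x ^ 2 + d * y ^ 2 := by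
    intro x y hx hy h h'
    rcases lt_or_gt_of_ne hd with hd' | hd'
    · have u0 : 0 < u := by
        rcases hu.eq_or_lt with rfl | h
        · nlinarith [sq_nonneg v]
        · exact h
      have x0 : 0 < x := by
        rcases hx.eq_or_lt with rfl | h
        · nlinarith
        · exact h
      have a1 : (u * y) ^ 2 ≤ (v * x) ^ 2 := pow_le_pow_left₀ (by positivity) h 2
      have a2 : 0 < x ^ 2 * (u ^ 2 + d * v ^ 2) := by positivity
      refine pos_of_mul_pos_left (b := u ^ 2) ?_ (sq_nonneg u)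
      nlinarith
    · rcases hx.eq_or_lt with rfl | h
      · have : 0 < y := by omega
        positivity
      · positivity
  lift v to ℕ using hv
  obtain ⟨x, y, x', y', ⟨a1, a2, a3, a4⟩, ⟨b1, b2, b3, b4⟩, h2, h3⟩ :=
    jump (fun x y => 0 ≤ x ∧ 0 ≤ y ∧ u * y ≤ v * x ∧ 0 < x + y)
    (fun x y => lam (x ^ 2 + d * y ^ 2))
    (by
      rintro x y x' y' p q s t D ⟨a1, a2, a3, a4⟩ ⟨b1, b2, b3, b4⟩ s0 t0 h1 h2 h3 h4
      have D0 : 0 < D := by omega
      refine ⟨nonneg_of_mul_nonneg_right (a := D) ?_ D0, nonneg_of_mul_nonneg_right (a := D) ?_ D0,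
        le_of_mul_le_mul_left (a := D) ?_ D0, pos_of_mul_pos_right (a := D) ?_ D0.le⟩
      · rw [h3]; positivity
      · rw [h4]; positivity
      · nlinarith [mul_le_mul_of_nonneg_left a3 s0, mul_le_mul_of_nonneg_left b3 t0]
      · nlinarith [mul_le_mul_of_nonneg_left (show 1 ≤ x + y by omega) s0,
          mul_le_mul_of_nonneg_left (show 1 ≤ x' + y' by omega) t0])
    (by
      rintro x y p q t D ⟨a1, a2, a3, a4⟩ ⟨b1, b2, b3, b4⟩ t0 D0 h1 h2
      exact lam_dir (hN _ _ a1 a2 a3 a4).ne' (hN _ _ b1 b2 b3 b4).ne' t0.ne' D0.ne' h1 h2)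
    v 1 0 u v ⟨by omega, by omega, by omega, by omega⟩ ⟨hu, by omega, by linarith, by omega⟩
    (by ring) (by omega) (by simp only [h1]; simp [lam_one])
  have n1 := hN _ _ a1 a2 a3 a4
  have n2 := hN _ _ b1 b2 b3 b4
  refine ⟨_, |x * x' + d * y * y'|, _, n1, abs_nonneg _, n2, ?_, h3⟩
  rw [sq_abs]
  linear_combination d * (x * y' - y * x' + 1) * h2

/-- arbitrarily large `b` with Liouville value `-1` -/
theorem exists_large {d : ℤ} (hd : d ≠ 0) (n : ℕ) : ∃ b : ℕ, n ≤ b ∧ lam (b ^ 2 + d) = -1 := by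
  have key : ∃ a b c : ℤ, 0 < a ∧ (n : ℤ) ≤ b ∧ 0 < c ∧ a * c = b ^ 2 + d ∧ lam a ≠ lam c := by
    induction n with
    | zero => exact exists_edge hd
    | succ n ih =>
      obtain ⟨a, b, c, h1, h2, h3, h4, h5⟩ := ih
      by_cases h6 : lam a = lam (a + 2 * b + c)
      · exact ⟨a + 2 * b + c, b + c, c, by omega, by omega, h3, by linear_combination h4, h6 ▸ h5⟩
      · exact ⟨a, a + b, a + 2 * b + c, h1, by omega, by omega, by linear_combination h4, h6⟩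
  obtain ⟨a, b, c, h1, h2, h3, h4, h5⟩ := key
  lift b to ℕ using by omega
  exact ⟨b, by omega, h4 ▸ lam_mul_of_ne h1.ne' h3.ne' h5⟩

end Pool.Agent.P.MP_192724_nt
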