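import Mathlib

/-!
Approximate eigenfunctions of translations of the line.
-/

open MeasureTheory Set

namespace Pool.Agent.P.MP_192724_nt

/-- inside the window `[-a, a]`, translation by `t` multiplies `φ` by `e` off a set of
measure at most `δ` -/
def Good (φ : ℝ → ℤ) (a t : ℝ) (e : ℤ) (δ : ℝ) : Prop :=
  volume {θ : ℝ | |θ| ≤ a ∧ |θ + t| ≤ a ∧ φ (θ + t) ≠ e * φ θ} ≤ ENNReal.ofReal δ

variable {φ : ℝ → ℤ} {a a' t t₁ t₂ δ δ' δ₁ δ₂ : ℝ} {e e₁ e₂ : ℤ}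

theorem Good.mono (h : Good φ a t e δ) (ha : a' ≤ a) (hδ : δ ≤ δ') : Good φ a' t e δ' := by
  refine le_trans (measure_mono ?_) (le_trans h (ENNReal.ofReal_le_ofReal hδ))
  rintro θ ⟨h1, h2, h3⟩
  exact ⟨h1.trans ha, h2.trans ha, h3⟩

theorem Good.neg (h : Good φ a t e δ) (he : e * e = 1) : Good φ a (-t) e δ := by
  refine le_trans ?_ h
  rw [← measure_preimage_add_right volume (-t)
    {θ : ℝ | |θ| ≤ a ∧ |θ + t| ≤ a ∧ φ (θ + t) ≠ e * φ θ}]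
  refine measure_mono ?_
  rintro θ ⟨h1, h2, h3⟩
  have h4 : θ + -t + t = θ := by ring
  refine ⟨h2, by rwa [h4], ?_⟩
  rw [h4]
  intro h5
  apply h3
  rw [h5, ← mul_assoc, he, one_mul]

theorem Good.add (h₁ : Good φ a' t₁ e₁ δ₁) (h₂ : Good φ a' t₂ e₂ δ₂) (ha : a ≤ a')
    (hm : ∀ θ, |θ| ≤ a → |θ + (t₁ + t₂)| ≤ a → |θ + t₁| ≤ a') (d₁ : 0 ≤ δ₁) (d₂ : 0 ≤ δ₂) :
    Good φ a (t₁ + t₂) (e₁ * e₂) (δ₁ + δ₂) := by
  unfold Good at *
  rw [← measure_preimage_add_right volume t₁] at h₂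
  rw [ENNReal.ofReal_add d₁ d₂]
  refine le_trans (measure_mono ?_) (le_trans (measure_union_le _ _) (add_le_add h₁ h₂))
  rintro θ ⟨h1, h2, h3⟩
  by_cases h4 : φ (θ + t₁) = e₁ * φ θ
  · right
    refine ⟨hm θ h1 h2, by rw [add_assoc]; exact h2.trans ha, ?_⟩
    rw [add_assoc, h4]
    intro h5
    apply h3
    rw [h5]
    ring
  · left
    exact ⟨h1.trans ha, hm θ h1 h2, h4⟩

theorem Good.add_pos (h₁ : Good φ a t₁ e₁ δ₁) (h₂ : Good φ a t₂ e₂ δ₂) (p₁ : 0 ≤ t₁) (p₂ : 0 ≤ t₂)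
    (d₁ : 0 ≤ δ₁) (d₂ : 0 ≤ δ₂) : Good φ a (t₁ + t₂) (e₁ * e₂) (δ₁ + δ₂) := by
  refine h₁.add h₂ le_rfl (fun θ h1 h2 => ?_) d₁ d₂
  rw [abs_le] at *
  constructor <;> linarith [h1.1, h2.2]

theorem Good.nsmul (h : Good φ a t 1 δ) (p : 0 ≤ t) (d : 0 ≤ δ) (n : ℕ) :
    Good φ a (n * t) 1 (n * δ) := by
  induction n with
  | zero => simp [Good]
  | succ n ih =>
    have := ih.add_pos h (by positivity) p (by positivity) d
    push_cast
    rwa [mul_one, ← add_one_mul, ← add_one_mul] at this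

/-- division with remainder -/
theorem Good.step {σ K δ₀ : ℝ} (h : Good φ a σ 1 δ) (hσ : 0 < σ) (d : 0 ≤ δ) (d₀ : 0 ≤ δ₀)
    (h0 : ∀ t, 0 ≤ t → t ≤ σ → Good φ a t 1 δ₀) (ht : 0 ≤ t) (hK : t ≤ K * σ) :
    Good φ a t 1 (K * δ + δ₀) := by
  have h1 : (⌊t / σ⌋₊ : ℝ) ≤ t / σ := Nat.floor_le (by positivity)
  have h2 : t / σ < ⌊t / σ⌋₊ + 1 := Nat.lt_floor_add_one _
  rw [le_div_iff₀ hσ] at h1
  rw [div_lt_iff₀ hσ] at h2
  have h3 := (h.nsmul hσ.le d ⌊t / σ⌋₊).add_pos (h0 (t - ⌊t / σ⌋₊ * σ) (by linarith) (by linarith))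
    (by positivity) (by linarith) (by positivity) d₀
  rw [add_sub_cancel, mul_one] at h3
  refine h3.mono le_rfl ?_
  have h4 : (⌊t / σ⌋₊ : ℝ) ≤ K := le_of_mul_le_mul_right (h1.trans hK) hσ
  nlinarith

/-- division with remainder, used only when the divisor is small -/
theorem Good.step' {σ K κ δ₀ : ℝ} (h : σ ≤ κ → Good φ a σ 1 δ) (hσ : 0 < σ) (d : 0 ≤ δ)
    (d₀ : 0 ≤ δ₀) (k₀ : 0 ≤ K) (h0 : ∀ t, 0 ≤ t → t ≤ κ → t ≤ σ → Good φ a t 1 δ₀) (ht : 0 ≤ t)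
    (hκ : t ≤ κ) (hK : t ≤ K * σ) : Good φ a t 1 (K * δ + δ₀) := by
  rcases le_total t σ with h1 | h1
  · exact (h0 t ht hκ h1).mono le_rfl (le_add_of_nonneg_left (by positivity))
  · exact (h (h1.trans hκ)).step hσ d d₀ (fun s a1 a2 => h0 s a1 (by linarith) a2) ht hK

/-- greedy expansion -/
theorem greedy {σ : ℕ → ℝ} {K κ : ℝ} {M R : ℕ} (d : 0 ≤ δ) (hK : 0 ≤ K)
    (h1 : ∀ m, M ≤ m → m ≤ R → 0 < σ m ∧ (σ m ≤ κ → Good φ a (σ m) 1 δ))
    (h2 : ∀ m, M ≤ m → σ m ≤ K * σ (m + 1))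
    (h3 : ∀ t, 0 ≤ t → t ≤ σ R → Good φ a t 1 δ) (i : ℕ) : ∀ m, M ≤ m → m + i = R →
      ∀ t, 0 ≤ t → t ≤ κ → t ≤ σ m → Good φ a t 1 ((i * K + 1) * δ) := by
  induction i with
  | zero =>
    intro m _ hm t h4 _ h5
    obtain rfl : m = R := hm
    simpa using h3 t h4 h5
  | succ i ih =>
    intro m hM hm t h4 h5 h6
    obtain ⟨h7, h8⟩ := h1 (m + 1) (by omega) (by omega)
    have := Good.step' h8 h7 d (by positivity) hK (ih (m + 1) (by omega) (by omega)) h4 h5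
      (h6.trans (h2 m hM))
    refine this.mono le_rfl (le_of_eq ?_)
    push_cast
    ring

/-- a sum of small steps with small total can be ordered so that the partial sums stay small -/
theorem balanced_aux {ι : Type} [DecidableEq ι] {t : ι → ℝ} {e : ι → ℤ} {κ : ℝ} (d : 0 ≤ δ)
    (s : Finset ι) : (∀ i ∈ s, |t i| ≤ κ ∧ Good φ (a + κ) (t i) (e i) δ) → ∀ u, |u| ≤ κ →
      |u + ∑ i ∈ s, t i| ≤ κ →
      volume {θ : ℝ | |θ| ≤ a ∧ φ (θ + u + ∑ i ∈ s, t i) ≠ (∏ i ∈ s, e i) * φ (θ + u)} ≤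
        ENNReal.ofReal (s.card * δ) := by
  induction s using Finset.strongInduction with
  | H s ih =>
  intro hs u h1 h2
  rcases s.eq_empty_or_nonempty with rfl | ⟨i₀, hi₀⟩
  · simp
  obtain ⟨i, hi, h3⟩ : ∃ i ∈ s, |u + t i| ≤ κ := by
    rw [abs_le] at h1 h2
    rcases le_total 0 u with h | h
    · by_cases h4 : ∃ i ∈ s, t i ≤ 0
      · obtain ⟨i, hi, h4⟩ := h4
        exact ⟨i, hi, abs_le.2 ⟨by linarith [(abs_le.1 (hs i hi).1).1], by linarith⟩⟩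
      · push Not at h4
        have := Finset.single_le_sum (fun i hi => (h4 i hi).le) hi₀
        exact ⟨i₀, hi₀, abs_le.2 ⟨by linarith [h4 i₀ hi₀], by linarith⟩⟩
    · by_cases h4 : ∃ i ∈ s, 0 ≤ t i
      · obtain ⟨i, hi, h4⟩ := h4
        exact ⟨i, hi, abs_le.2 ⟨by linarith, by linarith [(abs_le.1 (hs i hi).1).2]⟩⟩
      · push Not at h4
        have := Finset.single_le_sum (f := fun i => -t i) (fun i hi => by linarith [h4 i hi]) hi₀
        rw [Finset.sum_neg_distrib] at this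
        exact ⟨i₀, hi₀, abs_le.2 ⟨by linarith, by linarith [h4 i₀ hi₀]⟩⟩
  rw [← Finset.add_sum_erase s t hi, ← add_assoc] at h2
  have h4 := ih _ (Finset.erase_ssubset hi) (fun j hj => hs j (Finset.mem_of_mem_erase hj))
    (u + t i) h3 h2
  have h5 := (hs i hi).2
  unfold Good at h5
  rw [← measure_preimage_add_right volume u] at h5
  rw [← Finset.card_erase_add_one hi, ← Finset.add_sum_erase s t hi,
    ← Finset.mul_prod_erase s e hi, Nat.cast_add_one, add_one_mul,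
    ENNReal.ofReal_add (by positivity) d]
  refine le_trans (measure_mono ?_) (le_trans (measure_union_le _ _) (add_le_add h4 h5))
  rintro θ ⟨a1, a2⟩
  by_cases a3 : φ (θ + u + t i) = e i * φ (θ + u)
  · refine Or.inl ⟨a1, fun a4 => a2 ?_⟩
    rw [← add_assoc] at a4
    rw [← add_assoc, a4, a3]
    ring
  · refine Or.inr ⟨by linarith [abs_add_le θ u], ?_, a3⟩
    rw [add_assoc]
    linarith [abs_add_le θ (u + t i)]

theorem balanced {ι : Type} {t : ι → ℝ} {κ : ℝ} (d : 0 ≤ δ) (s : Finset ι)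
    (hs : ∀ i ∈ s, |t i| ≤ κ ∧ ∃ e, e * e = 1 ∧ Good φ (a + κ) (t i) e δ)
    (h0 : 0 ≤ ∑ i ∈ s, t i) (h : ∑ i ∈ s, t i ≤ κ) :
    Good φ a (2 * ∑ i ∈ s, t i) 1 (2 * (s.card * δ)) := by
  classical
  choose! e he using fun i hi => (hs i hi).2
  have h1 := balanced_aux (φ := φ) (a := a) (e := e) d s (fun i hi => ⟨(hs i hi).1, (he i hi).2⟩) 0
    (by simpa using h0.trans h) (by rwa [zero_add, abs_of_nonneg h0])
  have h2 : Good φ a (∑ i ∈ s, t i) (∏ i ∈ s, e i) (s.card * δ) := by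
    refine le_trans (measure_mono fun θ hθ => ?_) h1
    exact ⟨hθ.1, by simpa using hθ.2.2⟩
  have h3 := h2.add_pos h2 h0 h0 (by positivity) (by positivity)
  rwa [← Finset.prod_mul_distrib, Finset.prod_eq_one fun i hi => (he i hi).1, ← two_mul,
    ← two_mul] at h3

theorem Good.smul (h : Good φ a t e δ) (he : e * e = 1) {c : ℤ} (hc : |c| ≤ 1) :
    ∃ e, e * e = 1 ∧ Good φ a (c * t) e δ := by
  rcases (show c = 1 ∨ c = 0 ∨ c = -1 by rw [abs_le] at hc; omega) with rfl | rfl | rfl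
  · exact ⟨e, he, by simpa using h⟩
  · exact ⟨1, rfl, by simp [Good]⟩
  · exact ⟨e, he, by simpa using h.neg he⟩

theorem Good.contra (hφ : ∀ θ, φ θ ≠ 0) (h₁ : Good φ a t 1 δ₁) (h₂ : Good φ a t (-1) δ₂)
    (p : 0 ≤ t) (q : t ≤ a) (d₁ : 0 ≤ δ₁) (d₂ : 0 ≤ δ₂) : a ≤ δ₁ + δ₂ := by
  have h : volume (Icc (-a) 0) ≤ ENNReal.ofReal (δ₁ + δ₂) := by
    rw [ENNReal.ofReal_add d₁ d₂]
    refine le_trans (measure_mono ?_) (le_trans (measure_union_le _ _) (add_le_add h₁ h₂))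
    rintro θ ⟨h1, h2⟩
    have h3 : |θ| ≤ a := abs_le.2 ⟨h1, by linarith⟩
    have h4 : |θ + t| ≤ a := abs_le.2 ⟨by linarith, by linarith⟩
    by_cases h5 : φ (θ + t) = 1 * φ θ
    · right
      refine ⟨h3, h4, fun h6 => hφ θ ?_⟩
      linarith
    · exact Or.inl ⟨h3, h4, h5⟩
  rw [Real.volume_Icc, ENNReal.ofReal_le_ofReal_iff (by positivity)] at h
  linarith

end Pool.Agent.P.MP_192724_nt
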