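import Mathlib

/-!
Exponential sums with coefficients `-1, 0, 1`: high vanishing order at the origin, and a uniform
lower bound away from it.
-/

open Finset Filter Topology

namespace Pool.Agent.P.MP_192724_nt

/-- an exponential sum -/
noncomputable def pe (N : ℕ) (c : ℕ → ℤ) (t : ℝ) : ℝ := ∑ i ∈ range N, c i * Real.exp (-(i * t))

theorem continuous_pe (N : ℕ) (c : ℕ → ℤ) : Continuous (pe N c) := by
  unfold pe
  fun_prop

theorem siegel (k : ℕ) (hk : 0 < k) : ∃ c : ℕ → ℤ, (∀ i, |c i| ≤ 1) ∧ c 0 ≠ 0 ∧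
    ∀ l < k, ∑ i ∈ range (8 * k ^ 3), c i * (i : ℤ) ^ l = 0 := by
  classical
  obtain ⟨N, hN⟩ : ∃ N, N = 8 * k ^ 3 := ⟨_, rfl⟩
  rw [← hN]
  have N0 : 0 < N := by rw [hN]; positivity
  have hc : #(Fintype.piFinset fun _ : Fin k => range (N ^ k + 1)) < #(range N).powerset := by
    rw [Fintype.card_piFinset, prod_const, card_range, card_univ, Fintype.card_fin, card_powerset,
      card_range]
    have h1 : 2 * k ≤ 2 ^ k := Nat.mul_le_pow (by norm_num) k
    have h2 : N ≤ 2 ^ (k * 3) := by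
      rw [pow_mul, hN, show 8 * k ^ 3 = (2 * k) ^ 3 by ring]
      exact Nat.pow_le_pow_left h1 3
    have h3 : N ^ k + 1 ≤ 2 ^ (k * 3 * k + 1) := by
      have := Nat.pow_le_pow_left h2 k
      rw [← pow_mul] at this
      have h4 := Nat.two_pow_pos (k * 3 * k)
      rw [pow_succ]
      omega
    refine (Nat.pow_le_pow_left h3 k).trans_lt ?_
    rw [← pow_mul]
    refine Nat.pow_lt_pow_right (by norm_num) ?_
    have h4 : k ≤ k ^ 3 := Nat.le_self_pow (by norm_num) _
    nlinarith
  obtain ⟨S, hS, T, hT, hne, h⟩ := exists_ne_map_eq_of_card_lt_of_maps_to hc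
    (f := fun S (l : Fin k) => ∑ i ∈ S, i ^ (l : ℕ)) fun S hS => by
      refine mem_coe.2 (Fintype.mem_piFinset.2 fun l => mem_range.2 (Nat.lt_succ_of_le ?_))
      have h1 := mem_powerset.1 (mem_coe.1 hS)
      calc ∑ i ∈ S, i ^ (l : ℕ) ≤ #S • N ^ (l : ℕ) := sum_le_card_nsmul _ _ _ fun i hi =>
            Nat.pow_le_pow_left (mem_range.1 (h1 hi)).le _
        _ ≤ N * N ^ (l : ℕ) := Nat.mul_le_mul_right _ ((card_le_card h1).trans (card_range N).le)
        _ ≤ N ^ k := by rw [← pow_succ']; exact Nat.pow_le_pow_right N0 l.2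
  rw [mem_powerset] at hS hT
  let e : ℕ → ℤ := fun i => (if i ∈ S then 1 else 0) - (if i ∈ T then 1 else 0)
  have e1 : ∀ l < k, ∑ i ∈ range N, e i * (i : ℤ) ^ l = 0 := by
    intro l hl
    have h1 := congrFun h ⟨l, hl⟩
    simp only [e, sub_mul, sum_sub_distrib, ite_mul, one_mul, zero_mul, sum_ite_mem,
      inter_eq_right.2 hS, inter_eq_right.2 hT, sub_eq_zero]
    exact_mod_cast h1
  have e2 : ∃ i, e i ≠ 0 := by
    by_contra h1
    refine hne (Finset.ext fun i => ?_)
    have := not_not.1 (not_exists.1 h1 i)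
    by_cases a : i ∈ S <;> by_cases b : i ∈ T <;> simp [e, a, b] at this ⊢
  have e3 : ∀ i, N ≤ i → e i = 0 := fun i hi => by
    simp only [e, if_neg fun h => absurd (mem_range.1 (hS h)) (not_lt.2 hi),
      if_neg fun h => absurd (mem_range.1 (hT h)) (not_lt.2 hi), sub_self]
  refine ⟨fun i => e (Nat.find e2 + i), fun i => ?_, Nat.find_spec e2, fun l hl => ?_⟩
  · simp only [e]
    split_ifs <;> simp
  · have h1 : ∑ i ∈ range N, e i * ((i : ℤ) - Nat.find e2) ^ l = 0 := by
      simp only [sub_eq_add_neg, add_pow, mul_sum]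
      rw [sum_comm]
      refine sum_eq_zero fun m hm => ?_
      simp only [← mul_assoc, ← sum_mul]
      rw [e1 m (by have := mem_range.1 hm; omega), zero_mul, zero_mul]
    have h2 := sum_range_add (fun i => e i * ((i : ℤ) - Nat.find e2) ^ l) N (Nat.find e2)
    have h3 := sum_range_add (fun i => e i * ((i : ℤ) - Nat.find e2) ^ l) (Nat.find e2) N
    rw [h1, sum_eq_zero (s := range (Nat.find e2)) fun i _ => by
      rw [e3 _ (Nat.le_add_right _ _), zero_mul], add_comm N] at h2
    rw [h2, sum_eq_zero (s := range (Nat.find e2)) fun i hi => by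
      rw [not_not.1 (Nat.find_min e2 (mem_range.1 hi)), zero_mul]] at h3
    simpa using h3.symm

theorem pe_le (N : ℕ) {c : ℕ → ℤ} (hc : ∀ i, |c i| ≤ 1) {t : ℝ} (ht : 0 ≤ t) : |pe N c t| ≤ N := by
  refine (abs_sum_le_sum_abs _ _).trans ((sum_le_card_nsmul _ _ 1 fun i _ => ?_).trans (by simp))
  rw [abs_mul, Real.abs_exp]
  exact mul_le_one₀ (by exact_mod_cast hc i) (Real.exp_pos _).le
    (Real.exp_le_one_iff.2 (neg_nonpos.2 (by positivity)))

theorem pe_small {N k : ℕ} (hk : 0 < k) {c : ℕ → ℤ} (hc : ∀ i, |c i| ≤ 1)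
    (h : ∀ l < k, ∑ i ∈ range N, c i * (i : ℤ) ^ l = 0) {t : ℝ} (ht : 0 ≤ t) :
    |pe N c t| ≤ 2 * N * (N * t) ^ k := by
  have N0 : (0 : ℝ) ≤ N := Nat.cast_nonneg N
  rcases le_total 1 (N * t) with h1 | h1
  · have := one_le_pow₀ (n := k) h1
    exact (pe_le N hc ht).trans (by nlinarith)
  have h2 : ∑ i ∈ range N, (c i : ℝ) * ∑ m ∈ range k, (-(i * t)) ^ m / m.factorial = 0 := by
    simp only [mul_sum]
    rw [sum_comm]
    refine sum_eq_zero fun m hm => ?_
    have : ∑ i ∈ range N, (c i : ℝ) * i ^ m = 0 := by exact_mod_cast h m (mem_range.1 hm)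
    rw [← zero_mul ((-t) ^ m / m.factorial), ← this, sum_mul]
    refine sum_congr rfl fun i _ => ?_
    rw [← mul_neg, mul_pow]
    ring
  rw [← sub_zero (pe N c t), ← h2, pe, ← sum_sub_distrib]
  refine (abs_sum_le_sum_abs _ _).trans ((sum_le_card_nsmul _ _ (2 * (N * t) ^ k)
    fun i hi => ?_).trans (le_of_eq (by rw [card_range, nsmul_eq_mul]; ring)))
  have a1 : (i : ℝ) * t ≤ N * t :=
    mul_le_mul_of_nonneg_right (by exact_mod_cast (mem_range.1 hi).le) ht
  have a2 : |-((i : ℝ) * t)| = i * t := by rw [abs_neg, abs_of_nonneg (by positivity)]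
  have a3 := Real.exp_bound (x := -(i * t)) (by linarith) hk
  have a4 : (k.succ : ℝ) / (k.factorial * k) ≤ 2 := by
    have b1 : (1 : ℝ) ≤ k := by exact_mod_cast hk
    have b2 : (1 : ℝ) ≤ k.factorial := by exact_mod_cast k.factorial_pos
    rw [div_le_iff₀ (by positivity)]
    push_cast
    nlinarith
  rw [← mul_sub, abs_mul, mul_comm 2]
  refine (mul_le_of_le_one_left (abs_nonneg _) (by exact_mod_cast hc i)).trans (a3.trans ?_)
  rw [a2]
  gcongr

theorem pe_big {a b : ℝ} (ha : 0 < a) (hab : a < b) : ∃ η > 0, ∀ (N : ℕ) (c : ℕ → ℤ), 0 < N →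
    (∀ i, |c i| ≤ 1) → c 0 ≠ 0 → η ≤ ∫ t in a..b, pe N c t ^ 2 := by
  let F : (ℕ → Set.Icc (-1 : ℝ) 1) → ℝ → ℝ := fun c t => ∑' i, c i * Real.exp (-(max t a)) ^ i
  have r0 := Real.exp_pos (-a)
  have r1 : Real.exp (-a) < 1 := Real.exp_lt_one_iff.2 (by linarith)
  have hs := summable_geometric_of_lt_one r0.le r1
  have hF : Continuous F.uncurry := by
    refine continuous_tsum (f := fun i (p : (ℕ → Set.Icc (-1 : ℝ) 1) × ℝ) =>
      (p.1 i : ℝ) * Real.exp (-(max p.2 a)) ^ i) (fun i => by fun_prop) hs fun i p => ?_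
    rw [norm_mul, norm_pow, Real.norm_of_nonneg (Real.exp_pos _).le]
    refine (mul_le_of_le_one_left (by positivity) (abs_le.2 (p.1 i).2)).trans ?_
    gcongr
    exact le_max_right _ _
  have hΦ : Continuous fun c => ∫ t in a..b, F c t ^ 2 :=
    intervalIntegral.continuous_parametric_intervalIntegral_of_continuous'
      (f := fun c t => F c t ^ 2) (by exact hF.pow 2) a b
  have hK : IsCompact {c : ℕ → Set.Icc (-1 : ℝ) 1 | |(c 0 : ℝ)| = 1} :=
    (isClosed_eq (by fun_prop) continuous_const).isCompact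
  obtain ⟨η, h0, h1⟩ := hK.exists_forall_le' hΦ.continuousOn (a := 0) fun c hc => by
    refine intervalIntegral.integral_pos hab ((hF.uncurry_left c).pow 2).continuousOn
      (fun _ _ => sq_nonneg _) ?_
    by_contra h2
    have h3 : ∀ t ∈ Set.Icc a b, F c t = 0 := fun t ht => by
      by_contra h3
      exact h2 ⟨t, ht, by positivity⟩
    have h4 : DifferentiableOn ℂ (fun z : ℂ => ∑' i, ((c i : ℝ) : ℂ) * z ^ i)
        (Metric.ball 0 (Real.exp (-a))) := by
      refine Complex.differentiableOn_tsum_of_summable_norm hs (fun i => by fun_prop)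
        Metric.isOpen_ball fun i z hz => ?_
      rw [norm_mul, norm_pow, Complex.norm_real]
      refine (mul_le_of_le_one_left (by positivity) (abs_le.2 (c i).2)).trans ?_
      exact pow_le_pow_left₀ (norm_nonneg _) (mem_ball_zero_iff.1 hz).le _
    have h5 := (h4.analyticOnNhd Metric.isOpen_ball).eqOn_zero_of_preconnected_of_frequently_eq_zero
      (convex_ball _ _).isPreconnected (z₀ := ((Real.exp (-b) : ℝ) : ℂ))
      (by
        rw [mem_ball_zero_iff, Complex.norm_real, Real.norm_of_nonneg (Real.exp_pos _).le]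
        exact Real.exp_lt_exp.2 (by linarith))
      (by
        have h5 : Tendsto (fun t : ℝ => ((Real.exp (-t) : ℝ) : ℂ)) (𝓝[<] b)
            (𝓝[≠] ((Real.exp (-b) : ℝ) : ℂ)) := by
          refine tendsto_nhdsWithin_iff.2 ⟨(Continuous.tendsto (by fun_prop) b).mono_left
            nhdsWithin_le_nhds, eventually_nhdsWithin_of_forall fun t ht h => ?_⟩
          have := Real.exp_injective (Complex.ofReal_injective h)
          linarith [Set.mem_Iio.1 ht]
        refine h5.frequently (Eventually.frequently ?_)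
        filter_upwards [Ioo_mem_nhdsLT hab] with t ht
        have := congrArg Complex.ofReal (h3 t ⟨ht.1.le, ht.2.le⟩)
        simpa only [F, max_eq_left ht.1.le, Complex.ofReal_tsum, Complex.ofReal_mul,
          Complex.ofReal_pow, Complex.ofReal_zero] using this)
      (Metric.mem_ball_self r0)
    simp only [Pi.zero_apply] at h5
    rw [tsum_eq_single 0 fun i hi => by simp [hi]] at h5
    have h6 : (c 0 : ℝ) = 0 := by simpa using h5
    rw [Set.mem_ofPred_eq, h6] at hc
    simp at hc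
  refine ⟨η, h0, fun N c hN hc hc0 => ?_⟩
  have := h1 (fun i => if i < N then ⟨c i, abs_le.1 (by exact_mod_cast hc i)⟩
      else ⟨0, by norm_num⟩) (by
    simp only [Set.mem_ofPred_eq, if_pos hN]
    exact_mod_cast le_antisymm (hc 0) (Int.one_le_abs hc0))
  refine this.trans (le_of_eq (intervalIntegral.integral_congr fun t ht => ?_))
  rw [Set.uIcc_of_le hab.le] at ht
  simp only [F, pe, max_eq_left ht.1]
  rw [tsum_eq_sum (s := range N) fun i hi => by simp [mem_range.not.1 hi]]
  congr 1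
  refine sum_congr rfl fun i hi => ?_
  rw [if_pos (mem_range.1 hi), ← Real.exp_nat_mul, mul_neg]

end Pool.Agent.P.MP_192724_nt
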