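import Pool.Agent.P.MP_192724_nt.Ang
import Pool.Agent.P.MP_192724_nt.Poly

/-!
A Hankel form of `1 / (x ^ 2 + d)` as a positive Laplace transform.
-/

open Finset

namespace Pool.Agent.P.MP_192724_nt

variable {d : ℝ}

theorem laplace (hd : 1 ≤ |d|) {S C : ℝ → ℝ} (S0 : S 0 = 0) (C0 : C 0 = 1)
    (hS : ∀ t, HasDerivAt S (C t) t) (hC : ∀ t, HasDerivAt C (-d * S t) t)
    (h1 : |S (1 / |d|)| ≤ 3) (h2 : |C (1 / |d|)| ≤ 3) {x : ℝ} (hx : 8 * |d| ≤ x) :
    |1 / (x ^ 2 + d) - ∫ t in (0 : ℝ)..1 / |d|, Real.exp (-(x * t)) * S t| ≤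
      Real.exp (-(x * (1 / |d|))) := by
  have h3 : 3 * x + 3 ≤ x ^ 2 + d := by nlinarith [neg_abs_le d]
  have h4 : 0 < x ^ 2 + d := by linarith
  have cS : Continuous S := continuous_iff_continuousAt.2 fun t => (hS t).continuousAt
  have h5 : ∀ t, HasDerivAt (fun t => Real.exp (-(x * t)) * (-x * S t - C t) / (x ^ 2 + d))
      (Real.exp (-(x * t)) * S t) t := fun t => by
    refine (((((hasDerivAt_id t).const_mul x).neg.exp).mul
      (((hS t).const_mul (-x)).sub (hC t))).div_const (x ^ 2 + d)).congr_deriv ?_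
    simp only [id, Pi.neg_apply, Pi.sub_apply]
    field_simp
    ring
  rw [intervalIntegral.integral_eq_sub_of_hasDerivAt (fun t _ => h5 t)
    (Continuous.intervalIntegrable (by fun_prop) _ _), S0, C0]
  have e : 1 / (x ^ 2 + d) - (Real.exp (-(x * (1 / |d|))) * (-x * S (1 / |d|) - C (1 / |d|)) /
      (x ^ 2 + d) - Real.exp (-(x * 0)) * (-x * 0 - 1) / (x ^ 2 + d)) =
      Real.exp (-(x * (1 / |d|))) * ((x * S (1 / |d|) + C (1 / |d|)) / (x ^ 2 + d)) := by
    simp only [mul_zero, neg_zero, Real.exp_zero]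
    ring
  rw [e, abs_mul, Real.abs_exp]
  refine mul_le_of_le_one_right (Real.exp_pos _).le ?_
  rw [abs_div, abs_of_pos h4, div_le_one h4]
  have h6 := abs_add_le (x * S (1 / |d|)) (C (1 / |d|))
  rw [abs_mul, abs_of_nonneg (show 0 ≤ x by linarith)] at h6
  nlinarith

theorem exists_hankel (hd : 1 ≤ |d|) : ∃ η : ℝ, 0 < η ∧ η ≤ 1 ∧ ∀ k N : ℕ, 0 < k → N = 8 * k ^ 3 →
    ∃ (c : ℕ → ℤ) (h : ℝ → ℝ), (∀ i, |c i| ≤ 1) ∧ Antitone h ∧
      (∀ x s, 0 ≤ s → h x ≤ Real.exp s * h (x + s)) ∧
      (∀ x, 0 ≤ x → η * Real.exp (-(x / (2 * |d|))) ≤ h x) ∧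
      (∀ x, 0 < x → h x ≤ 12 * N ^ 2 * (2 * k * N / x) ^ (2 * k)) ∧
      ∀ x, 8 * |d| ≤ x → |∑ p ∈ range N ×ˢ range N,
        (c p.1 * c p.2 : ℤ) * (1 / ((x + (p.1 + p.2 : ℕ)) ^ 2 + d)) - h x| ≤
          N ^ 2 * Real.exp (-(x / |d|)) := by
  obtain ⟨S, C, S0, C0, hS, hC, hb⟩ := exists_sin hd
  have cS : Continuous S := continuous_iff_continuousAt.2 fun t => (hS t).continuousAt
  have d0 : 0 < |d| := by linarith
  have t0 : 0 < 1 / |d| := by positivity
  have t1 : 1 / |d| ≤ 1 := (div_le_one d0).2 hd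
  obtain ⟨η, η0, hη⟩ := pe_big (a := 1 / |d| / 4) (b := 1 / |d| / 2) (by positivity) (by linarith)
  refine ⟨min 1 (1 / |d| / 8 * η), by positivity, min_le_left _ _, fun k N hk hN => ?_⟩
  obtain ⟨c, c1, c2, c3⟩ := siegel k hk
  rw [← hN] at c3
  have cp := continuous_pe N c
  have Sp : ∀ t ∈ Set.Icc 0 (1 / |d|), 0 ≤ S t := fun t ht => by linarith [(hb t ht.1 ht.2).1, ht.1]
  have ii : ∀ x a b, IntervalIntegrable (fun t => Real.exp (-(x * t)) * (pe N c t ^ 2 * S t))
      MeasureTheory.volume a b := fun x a b => Continuous.intervalIntegrable (by fun_prop) _ _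
  refine ⟨c, fun x => ∫ t in (0 : ℝ)..1 / |d|, Real.exp (-(x * t)) * (pe N c t ^ 2 * S t), c1,
    fun x y hxy => ?_, fun x s hs => ?_, fun x hx => ?_, fun x hx => ?_, fun x hx => ?_⟩
  · refine intervalIntegral.integral_mono_on t0.le (ii _ _ _) (ii _ _ _) fun t ht => ?_
    have := Sp t ht
    have := ht.1
    gcongr
  · rw [← intervalIntegral.integral_const_mul]
    refine intervalIntegral.integral_mono_on t0.le (ii _ _ _) ((ii _ _ _).const_mul _)
      fun t ht => ?_
    have := Sp t ht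
    rw [← mul_assoc (Real.exp s), ← Real.exp_add]
    gcongr
    nlinarith [ht.2]
  · have a1 := hη N c (by rw [hN]; positivity) c1 c2
    calc _ ≤ (1 / |d| / 8 * Real.exp (-(x / (2 * |d|)))) *
          ∫ t in (1 / |d| / 4)..(1 / |d| / 2), pe N c t ^ 2 := by
          rw [mul_right_comm]
          gcongr
          exact (min_le_right _ _).trans (by gcongr)
      _ ≤ ∫ t in (1 / |d| / 4)..(1 / |d| / 2), Real.exp (-(x * t)) * (pe N c t ^ 2 * S t) := by
          rw [← intervalIntegral.integral_const_mul]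
          refine intervalIntegral.integral_mono_on (by linarith)
            (Continuous.intervalIntegrable (by fun_prop) _ _) (ii _ _ _) fun t ht => ?_
          have a2 := (hb t (by linarith [ht.1]) (by linarith [ht.2])).1
          have a3 : Real.exp (-(x / (2 * |d|))) ≤ Real.exp (-(x * t)) := by
            rw [Real.exp_le_exp, neg_le_neg_iff,
              show x / (2 * |d|) = x * (1 / |d| / 2) by field_simp]
            exact mul_le_mul_of_nonneg_left ht.2 hx
          rw [mul_comm (1 / |d| / 8), mul_assoc, mul_comm (1 / |d| / 8)]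
          gcongr
          linarith [ht.1]
      _ ≤ _ := by
          refine intervalIntegral.integral_mono_interval (by positivity) (by linarith) (by linarith)
            ?_ (ii _ _ _)
          refine (MeasureTheory.ae_restrict_iff' measurableSet_Ioc).2
            (Filter.Eventually.of_forall fun t ht => ?_)
          have := Sp t ⟨ht.1.le, ht.2⟩
          simp only [Pi.zero_apply]
          positivity
  · calc _ ≤ ∫ _ in (0 : ℝ)..1 / |d|, (12 * N ^ 2 * (2 * k * N / x) ^ (2 * k) : ℝ) := by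
          refine intervalIntegral.integral_mono_on t0.le (ii _ _ _) (by simp) fun t ht => ?_
          have a1 := pow_le_pow_left₀ (abs_nonneg _) (pe_small hk c1 c3 ht.1) 2
          have a2 := Real.pow_div_factorial_le_exp (x * t) (mul_nonneg hx.le ht.1) (2 * k)
          have a3 : ((2 * k).factorial : ℝ) ≤ (2 * k) ^ (2 * k) := by
            exact_mod_cast Nat.factorial_le_pow (2 * k)
          have a4 : Real.exp (-(x * t)) * t ^ (2 * k) ≤ (2 * k / x) ^ (2 * k) := by
            rw [div_le_iff₀ (by positivity), mul_pow] at a2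
            rw [Real.exp_neg, div_pow, inv_mul_eq_div, div_le_div_iff₀ (Real.exp_pos _)
              (by positivity)]
            nlinarith [mul_le_mul_of_nonneg_left a3 (Real.exp_pos (x * t)).le]
          rw [sq_abs] at a1
          calc _ ≤ Real.exp (-(x * t)) * ((2 * N * (N * t) ^ k) ^ 2 * 3) := by
                gcongr
                · exact Sp t ht
                · exact (hb t ht.1 ht.2).2.1
            _ = 12 * N ^ 2 * (N ^ (2 * k) * (Real.exp (-(x * t)) * t ^ (2 * k))) := by ring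
            _ ≤ 12 * N ^ 2 * (N ^ (2 * k) * (2 * k / x) ^ (2 * k)) := by gcongr
            _ = _ := by rw [← mul_pow, mul_div_assoc', mul_comm (N : ℝ)]
      _ ≤ _ := by
          rw [intervalIntegral.integral_const, sub_zero, smul_eq_mul]
          exact mul_le_of_le_one_left (by positivity) t1
  · have e : ∫ t in (0 : ℝ)..1 / |d|, Real.exp (-(x * t)) * (pe N c t ^ 2 * S t) =
        ∑ p ∈ range N ×ˢ range N, (c p.1 * c p.2 : ℤ) *
          ∫ t in (0 : ℝ)..1 / |d|, Real.exp (-((x + (p.1 + p.2 : ℕ)) * t)) * S t := by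
      simp only [← intervalIntegral.integral_const_mul]
      rw [← intervalIntegral.integral_finsetSum
        fun p _ => Continuous.intervalIntegrable (by fun_prop) _ _]
      refine intervalIntegral.integral_congr fun t _ => ?_
      simp only [pe]
      rw [sq, sum_mul_sum, ← sum_product', sum_mul, mul_sum]
      refine sum_congr rfl fun p _ => ?_
      push_cast
      rw [show -((x + (p.1 + p.2)) * t) = -(x * t) + -(p.1 * t) + -(p.2 * t) by ring, Real.exp_add,
        Real.exp_add]
      ring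
    simp only
    rw [e, ← sum_sub_distrib]
    refine (abs_sum_le_sum_abs _ _).trans ((sum_le_card_nsmul _ _ (Real.exp (-(x / |d|)))
      fun p _ => ?_).trans (le_of_eq (by simp [sq])))
    have a0 : (0 : ℝ) ≤ (p.1 + p.2 : ℕ) := Nat.cast_nonneg _
    obtain ⟨a1, a2, a3⟩ := hb _ t0.le le_rfl
    have a4 := laplace hd S0 C0 hS hC (abs_le.2 ⟨by linarith, a2⟩) a3
      (x := x + (p.1 + p.2 : ℕ)) (by linarith)
    have a5 : |((c p.1 * c p.2 : ℤ) : ℝ)| ≤ 1 := by
      exact_mod_cast (abs_mul _ _).trans_le (mul_le_one₀ (c1 _) (abs_nonneg _) (c1 _))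
    rw [← mul_sub, abs_mul]
    refine (mul_le_of_le_one_left (abs_nonneg _) a5).trans (a4.trans ?_)
    rw [div_eq_mul_one_div x]
    gcongr
    linarith

end Pool.Agent.P.MP_192724_nt
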