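import Pool.Agent.P.MP_192724_nt.Step
import Pool.Agent.P.MP_192724_nt.Lap

/-!
The chain of translations.
-/

open Finset

namespace Pool.Agent.P.MP_192724_nt

theorem chain {d : ℝ} {A : ℝ → ℝ} {φ : ℝ → ℤ} (hA : Ang d A) (hd : 1 ≤ |d|) (hφ : ∀ θ, φ θ ≠ 0)
    {N M R b : ℕ} {c : ℕ → ℤ} {h : ℝ → ℝ} {η δ G L : ℝ} (c1 : ∀ i, |c i| ≤ 1) (c2 : Antitone h)
    (c3 : ∀ x s, 0 ≤ s → h x ≤ Real.exp s * h (x + s))
    (c4 : ∀ x, 0 ≤ x → η * Real.exp (-(x / (2 * |d|))) ≤ h x)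
    (c5 : ∀ x, 8 * |d| ≤ x → |∑ p ∈ range N ×ˢ range N,
      (c p.1 * c p.2 : ℤ) * (1 / ((x + (p.1 + p.2 : ℕ)) ^ 2 + d)) - h x| ≤
        N ^ 2 * Real.exp (-(x / |d|)))
    (hη : 0 < η) (hδ : 0 ≤ δ) (m1 : 256 * |d| ≤ M) (m2 : 2 * N ^ 2 ≤ η * Real.exp (M / (2 * |d|)))
    (m3 : Real.exp ((M + 1) / (2 * |d|)) ≤ L * η) (hMR : M ≤ R) (hR : (R : ℝ) ≤ L)
    (hN : 4 * N ^ 2 ≤ L)
    (h1 : ∀ m : ℕ, M ≤ m → m ≤ R + 2 * N →
      ∃ e, e * e = 1 ∧ Good φ (1 / (64 * |d|)) (A (1 / m)) e δ)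
    (h2 : ∀ t, |t| ≤ G → Good φ (1 / (64 * |d|)) t 1 δ)
    (h3 : Good φ (1 / (64 * |d|)) (A (1 / b)) (-1) δ) (hb : 256 * |d| ≤ b)
    (hG : 3 * h R ≤ G) (N0 : 0 < N) : 1 ≤ 4 * L ^ 4 * δ := by
  have d0 : 0 < |d| := by linarith
  let τ : ℕ → (ℕ × ℕ) × ℕ → ℝ := fun m q =>
    (c q.1.1 * c q.1.2 * (-1) ^ q.2 : ℤ) * A (1 / (m + (q.1.1 + q.1.2) + q.2 : ℕ))
  let σ : ℕ → ℝ := fun m => 2 * ∑ q ∈ (range N ×ˢ range N) ×ˢ range 2, τ m q
  have hp : ∀ x, 0 ≤ x → 0 < h x := fun x hx => lt_of_lt_of_le (by positivity) (c4 x hx)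
  have est : ∀ m, M ≤ m → h (m + 1) ≤ σ m ∧ σ m ≤ 3 * h m := by
    intro m hm
    have a1 : (M : ℝ) ≤ m := by exact_mod_cast hm
    have der : ∀ x : ℝ, m ≤ x → HasDerivAt (fun x : ℝ => ∑ p ∈ range N ×ˢ range N,
        (c p.1 * c p.2 : ℤ) * A (1 / (x + (p.1 + p.2 : ℕ)))) (∑ p ∈ range N ×ˢ range N,
          (c p.1 * c p.2 : ℤ) * -(1 / ((x + (p.1 + p.2 : ℕ)) ^ 2 + d))) x := fun x hx =>
      HasDerivAt.fun_sum fun p _ => ((hA.th_der hd (x := x + (p.1 + p.2 : ℕ))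
        (by linarith [(Nat.cast_nonneg _ : (0 : ℝ) ≤ (p.1 + p.2 : ℕ))])).comp_add_const x _).const_mul _
    obtain ⟨x, hx, e⟩ := exists_hasDerivAt_eq_slope _ _ (show (m : ℝ) < m + 1 by linarith)
      (fun y hy => (der y hy.1).continuousAt.continuousWithinAt) fun y hy => der y hy.1.le
    have e1 : σ m = 2 * ∑ p ∈ range N ×ˢ range N,
        (c p.1 * c p.2 : ℤ) * (1 / ((x + (p.1 + p.2 : ℕ)) ^ 2 + d)) := by
      simp only [mul_neg, sum_neg_distrib, add_sub_cancel_left, div_one] at e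
      rw [neg_eq_iff_eq_neg.1 e, neg_sub, ← sum_sub_distrib]
      simp only [σ]
      rw [sum_product]
      congr 1
      refine sum_congr rfl fun p _ => ?_
      simp only [τ, sum_range_succ, range_zero, sum_empty]
      push_cast
      rw [add_right_comm (m : ℝ) 1]
      ring_nf
    have a2 := abs_le.1 (c5 x (by linarith [hx.1]))
    have a3 := c4 x (by linarith [hx.1])
    have a4 : 2 * (N ^ 2 * Real.exp (-(x / |d|))) ≤ η * Real.exp (-(x / (2 * |d|))) := by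
      calc _ ≤ η * Real.exp (M / (2 * |d|)) * Real.exp (-(x / |d|)) := by
            rw [← mul_assoc]
            gcongr
        _ ≤ _ := by
            rw [mul_assoc, ← Real.exp_add]
            gcongr
            have : (M : ℝ) / (2 * |d|) ≤ x / (2 * |d|) := by gcongr; linarith [hx.1]
            have : x / |d| = x / (2 * |d|) + x / (2 * |d|) := by field_simp; ring
            linarith
    have a5 := c2 hx.1.le
    have a6 := c2 hx.2.le
    rw [e1]
    constructor <;> linarith [a2.1, a2.2]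
  have e1 : 1 / (128 * |d|) + 1 / (128 * |d|) = 1 / (64 * |d|) := by field_simp; norm_num
  have e2 : 0 < 1 / (128 * |d|) := by positivity
  have n1 : (1 : ℝ) ≤ N ^ 2 := one_le_pow₀ (by exact_mod_cast N0)
  have k2 : ∀ m, M ≤ m → m ≤ R → 0 < σ m ∧
      (σ m ≤ 1 / (128 * |d|) → Good φ (1 / (128 * |d|)) (σ m) 1 (L * δ)) := by
    intro m a1 a2
    have a3 : 0 < σ m := (hp _ (by positivity)).trans_le (est m a1).1
    refine ⟨a3, fun a4 => (balanced (κ := 1 / (128 * |d|)) hδ _ (fun q hq => ?_)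
      (by simp only [σ] at a3; linarith) (by simp only [σ] at a3 a4; linarith)).mono le_rfl ?_⟩
    · simp only [mem_product, mem_range] at hq
      have b1 : |c q.1.1 * c q.1.2 * (-1) ^ q.2| ≤ 1 := by
        rw [abs_mul, abs_mul, abs_neg_one_pow, mul_one]
        exact mul_le_one₀ (c1 _) (abs_nonneg _) (c1 _)
      obtain ⟨e, b2, b3⟩ := h1 (m + (q.1.1 + q.1.2) + q.2) (by omega) (by omega)
      obtain ⟨b4, b5⟩ := hA.th_est hd (x := (m + (q.1.1 + q.1.2) + q.2 : ℕ))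
        (m1.trans (by exact_mod_cast (by omega)))
      refine ⟨?_, e1 ▸ b3.smul b2 b1⟩
      simp only [τ]
      rw [abs_mul, abs_of_nonneg b4]
      exact (mul_le_of_le_one_left b4 (by exact_mod_cast b1)).trans b5
    · simp only [card_product, card_range]
      push_cast
      nlinarith [mul_le_mul_of_nonneg_right hN hδ]
  have L1 : 256 * |d| ≤ L := m1.trans (le_trans (by exact_mod_cast hMR) hR)
  have L0 : 0 ≤ L := by linarith
  have k3 := greedy (σ := σ) (K := L) (M := M) (R := R) (by positivity) L0 k2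
    (fun m hm => by
      have a1 := (est m hm).2
      have a2 := (est (m + 1) (by omega)).1
      have a3 := c3 m 2 (by norm_num)
      have a4 : Real.exp 2 ≤ 9 := by
        rw [show (2 : ℝ) = 1 + 1 by norm_num, Real.exp_add]
        nlinarith [Real.exp_one_lt_d9, Real.exp_pos 1]
      have a5 := hp (m + 2) (by positivity)
      push_cast at a2
      rw [add_assoc, one_add_one_eq_two] at a2
      nlinarith [mul_le_mul_of_nonneg_left a2 L0])
    (fun t a1 a2 => (h2 t (by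
      rw [abs_of_nonneg a1]
      linarith [(est R hMR).2])).mono (by linarith) (by nlinarith)) (R - M) M le_rfl (by omega)
  obtain ⟨b3, b4⟩ := hA.th_est hd hb
  have b5 : 1 / (128 * |d|) ≤ 1 := (div_le_one (by positivity)).2 (by linarith)
  have b6 : 1 ≤ L * σ M := by
    have a1 := (c4 (M + 1) (by positivity)).trans (est M le_rfl).1
    have a2 := mul_le_mul_of_nonneg_right m3 (Real.exp_pos (-((M + 1) / (2 * |d|)))).le
    rw [← Real.exp_add, add_neg_cancel, Real.exp_zero, mul_assoc] at a2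
    exact a2.trans (mul_le_mul_of_nonneg_left a1 L0)
  obtain ⟨f1, f2⟩ := k2 M le_rfl hMR
  have k4 := Good.step' (K := L) f2 f1 (by positivity) (by positivity) L0 k3 b3 b4 (by linarith)
  have k5 := k4.contra hφ (h3.mono (by linarith) le_rfl) b3 b4 (by positivity) hδ
  have f3 : ((R - M : ℕ) : ℝ) ≤ L := le_trans (by exact_mod_cast Nat.sub_le R M) hR
  have f5 : L * (L * δ) + (((R - M : ℕ) : ℝ) * L + 1) * (L * δ) + δ ≤
      L * (L * δ) + (L * L + 1) * (L * δ) + δ := by gcongr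
  have f6 : 1 / L ≤ 1 / (128 * |d|) := one_div_le_one_div_of_le (by positivity) (by linarith)
  have f7 := f6.trans (k5.trans f5)
  rw [div_le_iff₀ (by linarith)] at f7
  have f8 : 1 ≤ L := by linarith
  have f9 : L ≤ L ^ 4 := le_self_pow₀ f8 (by norm_num)
  have f10 : L ^ 2 ≤ L ^ 4 := pow_le_pow_right₀ f8 (by norm_num)
  have f11 : L ^ 3 ≤ L ^ 4 := pow_le_pow_right₀ f8 (by norm_num)
  nlinarith [mul_le_mul_of_nonneg_right f9 hδ, mul_le_mul_of_nonneg_right f10 hδ,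
    mul_le_mul_of_nonneg_right f11 hδ]

end Pool.Agent.P.MP_192724_nt
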