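import Pool.Agent.P.MP_192724_nt.Edge
import Pool.Agent.P.MP_192724_nt.Good
import Pool.Agent.P.MP_192724_nt.Ang

/-!
The Liouville function of the norm is an approximate eigenfunction of angle translations.
-/

open Finset MeasureTheory Metric

namespace Pool.Agent.P.MP_192724_nt

theorem vol_balls {ι : Type} (s : Finset ι) (c r : ι → ℝ) (hr : ∀ i ∈ s, 0 ≤ r i) :
    volume (⋃ i ∈ s, closedBall (c i) (r i)) ≤ ENNReal.ofReal (∑ i ∈ s, 2 * r i) := by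
  rw [ENNReal.ofReal_sum_of_nonneg fun i hi => by linarith [hr i hi]]
  refine (measure_biUnion_finset_le _ _).trans (sum_le_sum fun i _ => ?_)
  rw [Real.volume_closedBall]

variable {d : ℤ} {A : ℝ → ℝ}

/-- the angles that are close to a rational slope of small height -/
def near (A : ℝ → ℝ) (H H₁ : ℕ) : Set ℝ :=
  ⋃ i ∈ (Ico 1 H₁).sigma (fun k : ℕ => Icc (-(k : ℤ)) k),
    closedBall (A ((i.2 : ℝ) / i.1)) (2 / (i.1 * H))

theorem vol_near (A : ℝ → ℝ) (H H₁ : ℕ) (hH : 0 < H) :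
    volume (near A H H₁) ≤ ENNReal.ofReal (12 * H₁ / H) := by
  refine (vol_balls _ _ _ fun i _ => by positivity).trans (ENNReal.ofReal_le_ofReal ?_)
  rw [sum_sigma]
  refine (sum_le_card_nsmul _ _ (12 / H : ℝ) fun k hk => ?_).trans ?_
  · have h1 : (1 : ℝ) ≤ k := by exact_mod_cast (mem_Ico.1 hk).1
    have h2 : #(Icc (-(k : ℤ)) k) = 2 * k + 1 := by rw [Int.card_Icc]; omega
    have h3 : (0 : ℝ) < H := by exact_mod_cast hH
    simp only
    rw [sum_const, h2, nsmul_eq_mul, ← mul_div_assoc, ← mul_div_assoc,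
      div_le_div_iff₀ (by positivity) h3]
    push_cast
    nlinarith
  · rw [nsmul_eq_mul, Nat.card_Ico, ← mul_div_assoc, mul_comm]
    gcongr
    omega

theorem exists_approx (hA : Ang d A) (hd : d ≠ 0) (H H₁ : ℕ) (hH : 0 < H) (h₁ : 0 < H₁)
    (hG : 32 * |(d : ℝ)| ≤ H₁ * H) (θ : ℝ) : ∃ k j : ℤ, 0 < k ∧ k ≤ H ∧
      (|θ| ≤ 1 / (64 * |(d : ℝ)|) → θ ∉ near A H H₁ →
        |(j : ℝ) / k| ≤ 1 / (16 * |(d : ℝ)|) ∧ |A (j / k) - θ| ≤ 2 / (H₁ * H)) := by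
  obtain ⟨s, rfl⟩ := hA.surj θ
  obtain ⟨j, k, k0, k1, h⟩ := Real.exists_int_int_abs_mul_sub_le s hH
  refine ⟨k, j, k0, k1, fun h1 h2 => ?_⟩
  have d1 : (1 : ℝ) ≤ |(d : ℝ)| := by exact_mod_cast Int.one_le_abs hd
  have k2 : (1 : ℝ) ≤ k := by exact_mod_cast k0
  have H0 : (1 : ℝ) ≤ H := by exact_mod_cast hH
  have H1 : (1 : ℝ) ≤ H₁ := by exact_mod_cast h₁
  have a1 : |s| ≤ 1 / (32 * |(d : ℝ)|) := by
    have := (hA.abs_le 0 s).1
    rw [hA.zero, sub_zero, sub_zero] at this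
    have e : 1 / (32 * |(d : ℝ)|) = 2 * (1 / (64 * |(d : ℝ)|)) := by field_simp; norm_num
    linarith
  have a2 : |(j : ℝ) / k - s| ≤ 1 / (k * H) := by
    have e : (j : ℝ) / k - s = -(k * s - j) / k := by field_simp; ring
    rw [e, abs_div, abs_neg, abs_of_pos (show (0 : ℝ) < k by linarith),
      div_le_iff₀ (by linarith)]
    refine h.trans ?_
    rw [show 1 / ((k : ℝ) * H) * k = 1 / H by field_simp]
    exact one_div_le_one_div_of_le (by linarith) (by linarith)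
  have a3 : |A (j / k) - A s| ≤ 2 / (k * H) := by
    have := (hA.abs_le s (j / k)).2
    rw [show 2 / ((k : ℝ) * H) = 2 * (1 / (k * H)) by ring]
    linarith
  have a4 : (H₁ : ℝ) ≤ k := by
    by_contra h3
    lift k to ℕ using k0.le
    have h4 : k < H₁ := by exact_mod_cast not_le.1 h3
    have h5 : |(j : ℝ)| ≤ k := by
      have b1 : |s| ≤ 1 / 2 := a1.trans (one_div_le_one_div_of_le (by norm_num) (by linarith))
      have b2 : 1 / ((H : ℝ) + 1) ≤ 1 / 2 := one_div_le_one_div_of_le (by norm_num) (by linarith)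
      have b3 := abs_sub ((k : ℝ) * s) (k * s - j)
      push_cast at h k2
      rw [sub_sub_cancel, abs_mul, Nat.abs_cast] at b3
      nlinarith
    refine h2 (Set.mem_iUnion₂.2 ⟨⟨k, j⟩, mem_sigma.2 ⟨mem_Ico.2 ⟨by exact_mod_cast k2, h4⟩,
      mem_Icc.2 (abs_le.1 (by exact_mod_cast h5))⟩, ?_⟩)
    rw [mem_closedBall, dist_comm, Real.dist_eq]
    simpa only [Int.cast_natCast] using a3
  refine ⟨?_, a3.trans (by gcongr)⟩
  have a5 : 1 / ((k : ℝ) * H) ≤ 1 / (32 * |(d : ℝ)|) :=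
    one_div_le_one_div_of_le (by linarith) (by nlinarith)
  have a6 := abs_add_le ((j : ℝ) / k - s) s
  have e : 1 / (16 * |(d : ℝ)|) = 2 * (1 / (32 * |(d : ℝ)|)) := by field_simp; norm_num
  rw [sub_add_cancel] at a6
  linarith

theorem exists_phi (hA : Ang d A) (hd : d ≠ 0) (H H₁ Q R : ℕ) (hH : 0 < H) (h₁ : 0 < H₁)
    (hG : 32 * |(d : ℝ)| ≤ H₁ * H) (hR : 0 < R) (hQ : 2 * R * H ≤ Q) (J : Finset ℝ)
    (hJ : ∀ x y x' y' : ℤ, 0 < x → x ≤ Q → 0 < x' → x' ≤ Q → |(y : ℝ) / x| ≤ 1 / (4 * |(d : ℝ)|) →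
        |(y' : ℝ) / x'| ≤ 1 / (4 * |(d : ℝ)|) →
        lam (x ^ 2 + d * y ^ 2) ≠ lam (x' ^ 2 + d * y' ^ 2) →
        ∃ s ∈ J, s ∈ Set.uIcc ((y : ℝ) / x) ((y' : ℝ) / x')) :
    ∃ φ : ℝ → ℤ, (∀ θ, φ θ ≠ 0) ∧ ∀ x y : ℤ, 0 < x → x ≤ R → |(y : ℝ) / x| ≤ 1 / (16 * |(d : ℝ)|) →
      ∀ t : ℝ, |t| ≤ 2 / (H₁ * H) → Good φ (1 / (64 * |(d : ℝ)|)) (A (y / x) + t)
        (lam (x ^ 2 + d * y ^ 2)) (24 * H₁ / H + 8 * #J / (H₁ * H)) := by
  choose k j k0 k1 hk using exists_approx hA hd H H₁ hH h₁ hG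
  refine ⟨fun θ => lam (k θ ^ 2 + d * j θ ^ 2), fun θ => lam_ne_zero _, ?_⟩
  intro x y x0 x1 hs t ht
  have d1 : (1 : ℝ) ≤ |(d : ℝ)| := by exact_mod_cast Int.one_le_abs hd
  have d2 : 1 / (16 * |(d : ℝ)|) ≤ 1 / (4 * |(d : ℝ)|) :=
    one_div_le_one_div_of_le (by positivity) (by linarith)
  set τ := A (y / x) + t with hτ
  have v1 := vol_near A H H₁ hH
  have v2 := v1
  rw [← measure_preimage_add_right volume τ] at v2
  have v3 := vol_balls J A (fun _ => 4 / (H₁ * H)) fun _ _ => by positivity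
  rw [← measure_preimage_add_right volume τ, sum_const, nsmul_eq_mul] at v3
  have e : (24 * H₁ / H + 8 * #J / (H₁ * H) : ℝ) =
      12 * H₁ / H + 12 * H₁ / H + #J * (2 * (4 / (H₁ * H))) := by ring
  unfold Good
  rw [e, ENNReal.ofReal_add (by positivity) (by positivity),
    ENNReal.ofReal_add (by positivity) (by positivity)]
  refine le_trans (measure_mono ?_) ((measure_union_le _ _).trans
    (add_le_add ((measure_union_le _ _).trans (add_le_add v1 v2)) v3))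
  rintro θ ⟨h1, h2, h3⟩
  by_contra h4
  simp only [Set.mem_union, Set.mem_preimage, not_or] at h4
  obtain ⟨a1, a2⟩ := hk θ h1 h4.1.1
  obtain ⟨b1, b2⟩ := hk (θ + τ) h2 h4.1.2
  obtain ⟨c1, c2, c3⟩ := slope_add_le d1 a1 hs
  have c4 := hA.add d1 a1 hs
  have p1 : (0 : ℝ) < k θ := by exact_mod_cast k0 θ
  have p2 : (0 : ℝ) < x := by exact_mod_cast x0
  have p3 : ((k θ * x - d * j θ * y : ℤ) : ℝ) = k θ * x * (1 - d * (j θ / k θ * (y / x))) := by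
    push_cast
    field_simp
  have p4 : ((k θ * y + j θ * x : ℤ) : ℝ) / (k θ * x - d * j θ * y : ℤ) =
      (j θ / k θ + y / x) / (1 - d * (j θ / k θ * (y / x))) := by
    rw [p3, ← div_div]
    congr 1
    push_cast
    field_simp
    ring
  have p5 : (0 : ℝ) < k θ * x := by positivity
  have p6 : (k θ : ℝ) * x ≤ H * R := by exact_mod_cast mul_le_mul (k1 θ) x1 x0.le (by omega)
  have p7 : (2 : ℝ) * R * H ≤ Q := by exact_mod_cast hQ
  have p8 : (H : ℤ) ≤ Q := by exact_mod_cast (show H ≤ Q by nlinarith)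
  have n1 := norm_pos hd (k0 θ) ((slope_iff hd (k0 θ)).1 (a1.trans d2))
  have n2 := norm_pos hd x0 ((slope_iff hd x0).1 (hs.trans d2))
  obtain ⟨s, hs1, hs2⟩ := hJ (k θ * x - d * j θ * y) (k θ * y + j θ * x) (k (θ + τ)) (j (θ + τ))
    (Int.cast_pos.1 (by rw [p3]; positivity : (0 : ℝ) < _))
    (Int.cast_le.1 (by rw [p3]; push_cast; nlinarith : (_ : ℝ) ≤ _)) (k0 _) ((k1 _).trans p8)
    (p4 ▸ c3) (b1.trans d2) (by
      rw [show (k θ * x - d * j θ * y) ^ 2 + d * (k θ * y + j θ * x) ^ 2 =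
        (x ^ 2 + d * y ^ 2) * (k θ ^ 2 + d * j θ ^ 2) by ring, lam_mul n2.ne' n1.ne']
      exact Ne.symm h3)
  refine h4.2 (Set.mem_iUnion₂.2 ⟨s, hs1, ?_⟩)
  have q1 := hA.mono.mapsTo_uIcc hs2
  rw [p4, c4] at q1
  rw [mem_closedBall, dist_comm, Real.dist_eq, abs_sub_le_iff, sub_le_iff_le_add', sub_le_comm,
    and_comm]
  have q2 : (4 : ℝ) / (H₁ * H) = 2 / (H₁ * H) + 2 / (H₁ * H) := by ring
  have q3 : (0 : ℝ) ≤ 2 / (H₁ * H) := by positivity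
  rw [abs_le] at a2 b2 ht
  exact Set.uIcc_subset_Icc (a₂ := θ + τ - 4 / (H₁ * H)) (b₂ := θ + τ + 4 / (H₁ * H))
    ⟨by linarith [a2.1, ht.2], by linarith [a2.2, ht.1]⟩
    ⟨by linarith [b2.1], by linarith [b2.2]⟩ q1

end Pool.Agent.P.MP_192724_nt
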